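import Mathlib

/-!
# Formations of finite groups (MP_799fdf_al): definitions
-/

set_option autoImplicit false

open scoped commutatorElement

namespace MP799fdf

/-- A formation: a class of finite groups closed under isomorphism, quotients and
`G/N₁, G/N₂ ↦ G/(N₁ ∩ N₂)`. -/
structure Formation where
  /-- membership in the class -/
  mem : (G : Type) → [Group G] → [Finite G] → Prop
  iso : ∀ (G H : Type) [Group G] [Finite G] [Group H] [Finite H], (G ≃* H) → mem G → mem H
  quot : ∀ (G : Type) [Group G] [Finite G] (N : Subgroup G) [N.Normal], mem G → mem (G ⧸ N)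
  sub : ∀ (G : Type) [Group G] [Finite G] (N₁ N₂ : Subgroup G) [N₁.Normal] [N₂.Normal],
    mem (G ⧸ N₁) → mem (G ⧸ N₂) → mem (G ⧸ (N₁ ⊓ N₂))

/-- The formation generated by a class `P` of finite groups: the intersection of all formations
containing `P`. -/
def gen (P : (H : Type) → [Group H] → [Finite H] → Prop) : Formation where
  mem H _ _ := ∀ F : Formation, (∀ (X : Type) [Group X] [Finite X], P X → F.mem X) → F.mem H
  iso G H _ _ _ _ e h F hF := F.iso G H e (h F hF)
  quot G _ _ N _ h F hF := F.quot G N (h F hF)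
  sub G _ _ N₁ N₂ _ _ h₁ h₂ F hF := F.sub G N₁ N₂ (h₁ F hF) (h₂ F hF)

/-- `form G`: the intersection of all formations containing `G`. -/
def form (G : Type) [Group G] [Finite G] : Formation where
  mem H _ _ := ∀ F : Formation, F.mem G → F.mem H
  iso A B _ _ _ _ e h F hF := F.iso A B e (h F hF)
  quot A _ _ N _ h F hF := F.quot A N (h F hF)
  sub A _ _ N₁ N₂ _ _ h₁ h₂ F hF := F.sub A N₁ N₂ (h₁ F hF) (h₂ F hF)

/-- `F` is a subformation of `E`. -/
def Formation.IsSub (F E : Formation) : Prop :=
  ∀ (H : Type) [Group H] [Finite H], F.mem H → E.mem H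

/-- The formation generated by the members of `form K` of order less than `|K|`. -/
def low (K : Type) [Group K] [Finite K] : Formation :=
  gen fun H _ _ => (form K).mem H ∧ Nat.card H < Nat.card K

/-- `K` is irreducible. -/
def IsIrr (K : Type) [Group K] [Finite K] : Prop := ¬ (low K).mem K

section Subgroups

variable {K : Type*} [Group K]

/-- Derived series of a subgroup (as subgroups of the whole group). -/
def dser (H : Subgroup K) : ℕ → Subgroup K
  | 0 => H
  | n + 1 => ⁅dser H n, dser H n⁆

/-- Soluble residual (last term of the derived series) of a subgroup. -/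
def res (H : Subgroup K) : Subgroup K := ⨅ n, dser H n

/-- `gam F 0 = K`, `gam F 1 = F`, `gam F (n + 2) = ⁅gam F (n + 1), F⁆`. -/
def gam (F : Subgroup K) : ℕ → Subgroup K
  | 0 => ⊤
  | n + 1 => F.lowerCentralSeries n

/-- Every perfect normal subgroup `R` has trivial centre modulo every normal subgroup `Y ≤ R` of the
whole group. -/
def CF (K : Type*) [Group K] : Prop :=
  ∀ R Y : Subgroup K, R.Normal → Y.Normal → Y ≤ R → ⁅R, R⁆ = R →
    ∀ x ∈ R, (∀ r ∈ R, ⁅x, r⁆ ∈ Y) → x ∈ Y

/-- `H/L` is a chief factor. -/
structure IsChief (H L : Subgroup K) : Prop where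
  nH : H.Normal
  nL : L.Normal
  lt : L < H
  min : ∀ Z : Subgroup K, Z.Normal → L ≤ Z → Z ≤ H → Z = L ∨ Z = H

/-- All chief factors have order at most `n`, and so have the groups induced on them. -/
def ChiefBound (n : ℕ) (K : Type*) [Group K] : Prop :=
  ∀ H L : Subgroup K, IsChief H L → L.relIndex H ≤ n ∧
    ∃ C : Subgroup K, C.Normal ∧ ⁅C, H⁆ ≤ L ∧ C.index ≤ n

/-- `V` is the unique minimal normal subgroup. -/
structure IsMono (V : Subgroup K) : Prop where
  nV : V.Normal
  ne : V ≠ ⊥
  le : ∀ Z : Subgroup K, Z.Normal → Z ≠ ⊥ → V ≤ Z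

/-- The function on the cube with value `n` at the supersets of `T`. -/
def bb {ι : Type*} [DecidableEq ι] (T : Finset ι) (n : K) : Finset ι → K :=
  fun S => if T ⊆ S then n else 1

/-- The cube group of a family of subgroups. -/
def DD {ι : Type*} [DecidableEq ι] (s : Finset ι) (N : Finset ι → Subgroup K) :
    Subgroup (Finset ι → K) :=
  Subgroup.closure {φ | ∃ T ⊆ s, ∃ n ∈ N T, φ = bb T n}

end Subgroups

end MP799fdf
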