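import Pool.Agent.Lib.MP_799fdf_al.Defs

section

/-! # The cube lemma -/

set_option autoImplicit false

open scoped commutatorElement

namespace MP799fdf

variable {K ι : Type*} [Group K] [DecidableEq ι]

/-- restriction to the lower face -/
private def low' (a : ι) : (Finset ι → K) →* (Finset ι → K) where
  toFun φ := fun S => φ (S.erase a)
  map_one' := rfl
  map_mul' _ _ := rfl

/-- restriction to the upper face -/
private def up' (a : ι) : (Finset ι → K) →* (Finset ι → K) where
  toFun φ := fun S => φ (insert a S)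
  map_one' := rfl
  map_mul' _ _ := rfl

private lemma low_bb_mem (a : ι) (T : Finset ι) (n : K) (h : a ∈ T) : low' a (bb T n) = 1 := by
  funext S
  have : ¬ T ⊆ S.erase a := fun hT => absurd (hT h) (Finset.notMem_erase a S)
  simp [low', bb, this]

private lemma low_bb_not (a : ι) (T : Finset ι) (n : K) (h : a ∉ T) :
    low' a (bb T n) = bb T n := by
  funext S
  have : T ⊆ S.erase a ↔ T ⊆ S := by
    constructor
    · exact fun hT => hT.trans (Finset.erase_subset a S)
    · intro hT x hx
      exact Finset.mem_erase.2 ⟨fun e => h (e ▸ hx), hT hx⟩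
  simp [low', bb, this]

private lemma up_bb (a : ι) (T : Finset ι) (n : K) : up' a (bb T n) = bb (T.erase a) n := by
  funext S
  have : T ⊆ insert a S ↔ T.erase a ⊆ S := by
    rw [Finset.subset_insert_iff]
  simp [up', bb, this]

private lemma bb_mem {s : Finset ι} {N : Finset ι → Subgroup K} {T : Finset ι} (hT : T ⊆ s) {n : K}
    (hn : n ∈ N T) : bb T n ∈ DD s N := Subgroup.subset_closure ⟨T, hT, n, hn, rfl⟩

private lemma bb_comm (T T' : Finset ι) (n n' : K) :
    bb T n * bb T' n' * (bb T n)⁻¹ = bb (T ∪ T') ⁅n, n'⁆ * bb T' n' := by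
  funext S
  simp only [Pi.mul_apply, Pi.inv_apply, bb, Finset.union_subset_iff]
  by_cases h1 : T ⊆ S <;> by_cases h2 : T' ⊆ S <;> simp [h1, h2, commutatorElement_def]

/-- conjugation by the large cube group preserves the small one -/
private lemma conj_mem {s : Finset ι} {a : ι} {N : Finset ι → Subgroup K}
    (hN : ∀ S T, ⁅N S, N T⁆ ≤ N (S ∪ T)) {g : Finset ι → K} (hg : g ∈ DD s N)
    {h : Finset ι → K} (hh : h ∈ DD s (fun T => N (insert a T))) :
    g * h * g⁻¹ ∈ DD s (fun T => N (insert a T)) := by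
  -- generators of both kinds
  have key : ∀ T ⊆ s, ∀ n ∈ N T, ∀ h ∈ DD s (fun T => N (insert a T)),
      bb T n * h * (bb T n)⁻¹ ∈ DD s (fun T => N (insert a T)) := by
    intro T hT n hn h hh
    induction hh using Subgroup.closure_induction with
    | mem x hx =>
      obtain ⟨T', hT', n', hn', rfl⟩ := hx
      rw [bb_comm]
      refine Subgroup.mul_mem _ (bb_mem (Finset.union_subset hT hT') ?_) (bb_mem hT' hn')
      have h3 : ⁅n, n'⁆ ∈ N (T ∪ insert a T') :=
        hN T (insert a T') (Subgroup.commutator_mem_commutator hn hn')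
      have h4 : T ∪ insert a T' = insert a (T ∪ T') := by
        rw [Finset.union_insert]
      rw [h4] at h3
      exact h3
    | one => simp
    | mul x y _ _ hx hy =>
      have : bb T n * (x * y) * (bb T n)⁻¹ =
          (bb T n * x * (bb T n)⁻¹) * (bb T n * y * (bb T n)⁻¹) := by group
      rw [this]
      exact Subgroup.mul_mem _ hx hy
    | inv x _ hx =>
      have : bb T n * x⁻¹ * (bb T n)⁻¹ = (bb T n * x * (bb T n)⁻¹)⁻¹ := by group
      rw [this]
      exact Subgroup.inv_mem _ hx
  have bbinv : ∀ (T : Finset ι) (n : K), (bb T n)⁻¹ = bb T n⁻¹ := by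
    intro T n
    funext S
    by_cases h1 : T ⊆ S <;> simp [bb, h1]
  -- the normaliser
  let X : Subgroup (Finset ι → K) := Subgroup.normalizer
    ((DD s (fun T => N (insert a T)) : Subgroup (Finset ι → K)) : Set (Finset ι → K))
  have hX : DD s N ≤ X := by
    rw [DD, Subgroup.closure_le]
    rintro _ ⟨T, hT, n, hn, rfl⟩
    rw [SetLike.mem_coe, Subgroup.mem_normalizer_iff]
    intro h
    constructor
    · exact fun hh => key T hT n hn h hh
    · intro hh
      have := key T hT n⁻¹ ((N T).inv_mem hn) _ hh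
      rw [← bbinv] at this
      have e : (bb T n)⁻¹ * (bb T n * h * (bb T n)⁻¹) * ((bb T n)⁻¹)⁻¹ = h := by group
      rwa [e] at this
  exact (Subgroup.mem_normalizer_iff.1 (hX hg) h).1 hh

private lemma face {s : Finset ι} {a : ι} {N : Finset ι → Subgroup K}
    (hN : ∀ S T, ⁅N S, N T⁆ ≤ N (S ∪ T)) {φ : Finset ι → K} (hφ : φ ∈ DD (insert a s) N) :
    low' a φ ∈ DD s N ∧ up' a φ * (low' a φ)⁻¹ ∈ DD s (fun T => N (insert a T)) := by
  induction hφ using Subgroup.closure_induction with
  | mem x hx =>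
    obtain ⟨T, hT, n, hn, rfl⟩ := hx
    by_cases haT : a ∈ T
    · rw [low_bb_mem a T n haT, up_bb]
      refine ⟨Subgroup.one_mem _, ?_⟩
      rw [inv_one, mul_one]
      refine bb_mem ?_ ?_
      · rw [← Finset.subset_insert_iff]
        exact hT
      · simpa [Finset.insert_erase haT] using hn
    · rw [low_bb_not a T n haT, up_bb, Finset.erase_eq_of_notMem haT]
      refine ⟨bb_mem ?_ hn, ?_⟩
      · rwa [Finset.subset_insert_iff_of_notMem haT] at hT
      · rw [mul_inv_cancel]
        exact Subgroup.one_mem _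
  | one => simp
  | mul x y _ _ hx hy =>
    refine ⟨?_, ?_⟩
    · rw [map_mul]
      exact Subgroup.mul_mem _ hx.1 hy.1
    · have : up' a (x * y) * (low' a (x * y))⁻¹ =
          (up' a x * (low' a x)⁻¹) * (low' a x * (up' a y * (low' a y)⁻¹) * (low' a x)⁻¹) := by
        rw [map_mul, map_mul]
        group
      rw [this]
      exact Subgroup.mul_mem _ hx.2 (conj_mem hN hx.1 hy.2)
  | inv x _ hx =>
    refine ⟨?_, ?_⟩
    · rw [map_inv]
      exact Subgroup.inv_mem _ hx.1
    · have : up' a x⁻¹ * (low' a x⁻¹)⁻¹ =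
          (low' a x)⁻¹ * (up' a x * (low' a x)⁻¹)⁻¹ * ((low' a x)⁻¹)⁻¹ := by
        rw [map_inv, map_inv]
        group
      rw [this]
      exact conj_mem hN (Subgroup.inv_mem _ hx.1) (Subgroup.inv_mem _ hx.2)

/-- THE CUBE LEMMA: a function in the cube group that is trivial at all vertices `S ⊆ s` except
`S₀` has at `S₀` a value in `N s`.

PROOF. Induction on `s` (for all families). `s = ∅`: closure induction. `s = insert a s'`, `a ∉ s'`.
Let `low φ S = φ (S.erase a)`, `up φ S = φ (insert a S)` (homomorphisms), `Na T = N (insert a T)`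
(again a family with the commutator property). For `T ⊆ s`, `n ∈ N T`:
`low (bb T n) = bb T n` if `a ∉ T`, and `1` if `a ∈ T`; `up (bb T n) = bb (T.erase a) n`.
CLAIM: for `φ ∈ DD s N`: `low φ ∈ DD s' N` and `up φ * (low φ)⁻¹ ∈ DD s' Na`. Closure induction;
for products use that `DD s' N` normalises `DD s' Na`: `⁅bb T n, bb T' n'⁆ = bb (T ∪ T') ⁅n, n'⁆`,
`⁅N T, N (insert a T')⁆ ≤ N (insert a (T ∪ T'))`.
Now evaluate `up φ * (low φ)⁻¹` at `S ⊆ s'` (there `S.erase a = S`): the value is
`φ (insert a S) * (φ S)⁻¹`. If `a ∈ S₀` it is trivial for all `S ≠ S₀.erase a` and `φ S₀` for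
`S = S₀.erase a`; if `a ∉ S₀` it is trivial for `S ≠ S₀` and `(φ S₀)⁻¹` for `S = S₀`. By induction
(family `Na`) `φ S₀ ∈ Na s' = N s`. -/
theorem cube (s : Finset ι) (N : Finset ι → Subgroup K) (hN : ∀ S T, ⁅N S, N T⁆ ≤ N (S ∪ T))
    (φ : Finset ι → K) (hφ : φ ∈ DD s N) (S₀ : Finset ι) (hS₀ : S₀ ⊆ s)
    (h1 : ∀ S ⊆ s, S ≠ S₀ → φ S = 1) : φ S₀ ∈ N s := by
  induction s using Finset.induction_on generalizing N φ S₀ with
  | empty =>
    have : S₀ = ∅ := Finset.subset_empty.1 hS₀
    subst this
    clear h1 hS₀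
    induction hφ using Subgroup.closure_induction with
    | mem x hx =>
      obtain ⟨T, hT, n, hn, rfl⟩ := hx
      have : T = ∅ := Finset.subset_empty.1 hT
      subst this
      simpa [bb] using hn
    | one => exact Subgroup.one_mem _
    | mul x y _ _ hx hy => exact Subgroup.mul_mem _ hx hy
    | inv x _ hx => exact Subgroup.inv_mem _ hx
  | insert a s ha ih =>
    obtain ⟨-, h3⟩ := face hN hφ
    have hN' : ∀ S T, ⁅N (insert a S), N (insert a T)⁆ ≤ N (insert a (S ∪ T)) := by
      intro S T
      have := hN (insert a S) (insert a T)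
      have e : insert a S ∪ insert a T = insert a (S ∪ T) := by
        ext x
        simp
      rwa [e] at this
    have hval : ∀ S ⊆ s, (up' a φ * (low' a φ)⁻¹) S = φ (insert a S) * (φ S)⁻¹ := by
      intro S hS
      have : S.erase a = S := Finset.erase_eq_of_notMem fun h => ha (hS h)
      simp [up', low', this]
    by_cases haS : a ∈ S₀
    · have hS1 : S₀.erase a ⊆ s := by
        rwa [← Finset.subset_insert_iff]
      have := ih (fun T => N (insert a T)) hN' _ h3 (S₀.erase a) hS1 (by
        intro S hS hne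
        rw [hval S hS, h1 S (hS.trans (Finset.subset_insert a s)) (fun e => ha (hS (e ▸ haS))),
          h1 (insert a S) (Finset.insert_subset_insert a hS) (fun e => hne (by
            rw [← e, Finset.erase_insert (fun h => ha (hS h))]))]
        simp)
      rw [hval _ hS1, Finset.insert_erase haS, h1 (S₀.erase a)
        (hS1.trans (Finset.subset_insert a s)) (fun e => by
          have := Finset.notMem_erase a S₀
          rw [e] at this
          exact this haS)] at this
      simpa using this
    · have hS1 : S₀ ⊆ s := by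
        rwa [Finset.subset_insert_iff_of_notMem haS] at hS₀
      have h5 : ∀ S ⊆ s, φ (insert a S) = 1 := by
        intro S hS
        exact h1 _ (Finset.insert_subset_insert a hS) (fun e => haS (by
          rw [← e]
          exact Finset.mem_insert_self a S))
      have := ih (fun T => N (insert a T)) hN' _ h3 S₀ hS1 (by
        intro S hS hne
        rw [hval S hS, h5 S hS, h1 S (hS.trans (Finset.subset_insert a s)) hne]
        simp)
      rw [hval _ hS1, h5 S₀ hS1, one_mul] at this
      simpa using this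

end MP799fdf
end

section

/-! # The Frattini subgroup -/

set_option autoImplicit false

open scoped commutatorElement

namespace MP799fdf

open Finset

private theorem FratC_card_sup_le {Q : Type} [Group Q] [Finite Q] (M B : Subgroup Q)
    [B.Normal] : Nat.card ↥(M ⊔ B) ≤ Nat.card M * Nat.card B := by
  rw [← Nat.card_prod]
  refine Nat.card_le_card_of_surjective
    (fun g : M × B => (⟨(g.1 : Q) * (g.2 : Q),
      mul_mem (Subgroup.mem_sup_left g.1.2) (Subgroup.mem_sup_right g.2.2)⟩ : ↥(M ⊔ B))) ?_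
  rintro ⟨x, hx⟩
  have h1 : x ∈ ((M ⊔ B : Subgroup Q) : Set Q) := hx
  rw [Subgroup.mul_normal] at h1
  obtain ⟨a, ha, b, hb, rfl⟩ := h1
  exact ⟨(⟨a, ha⟩, ⟨b, hb⟩), rfl⟩

private theorem FratC_card_sup {Q : Type} [Group Q] [Finite Q] (M B : Subgroup Q)
    [B.Normal] (h : M ⊓ B = ⊥) : Nat.card ↥(M ⊔ B) = Nat.card M * Nat.card B := by
  rw [← Nat.card_prod]
  refine (Nat.card_eq_of_bijective
    (fun g : M × B => (⟨(g.1 : Q) * (g.2 : Q),
      mul_mem (Subgroup.mem_sup_left g.1.2) (Subgroup.mem_sup_right g.2.2)⟩ : ↥(M ⊔ B)))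
      ⟨?_, ?_⟩).symm
  · intro g g' hg
    exact Subgroup.mul_injective_of_disjoint (disjoint_iff.2 h) (Subtype.ext_iff.1 hg)
  · rintro ⟨x, hx⟩
    have h1 : x ∈ ((M ⊔ B : Subgroup Q) : Set Q) := hx
    rw [Subgroup.mul_normal] at h1
    obtain ⟨a, ha, b, hb, rfl⟩ := h1
    exact ⟨(⟨a, ha⟩, ⟨b, hb⟩), rfl⟩

private theorem FratC_two_le {Q : Type} [Group Q] [Finite Q] {W : Subgroup Q}
    (h : IsChief W ⊥) : 2 ≤ Nat.card W := by
  have h1 : 1 < Nat.card W := by
    rw [Subgroup.one_lt_card_iff_ne_bot]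
    exact ne_of_gt h.lt
  exact h1

private theorem FratC_iSup_normal {Q : Type} [Group Q] {ι : Sort*} (U : ι → Subgroup Q)
    (h : ∀ i, (U i).Normal) : (⨆ i, U i).Normal := by
  have := h
  exact Subgroup.iSup_normal U

/-- A maximal independent family of abelian minimal normal subgroups.

PROOF. By induction on `k` (or by maximality of the cardinality of `A`): consider the families
`U : Fin r → Subgroup Q` of abelian minimal normal subgroups with `|⨆ U i| = ∏ |U i|`. Every factor
is at least `2`, so `2 ^ r ≤ |Q|` and `r` is bounded; take `r` maximal. The subgroups commute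
pairwise (if `U i ≠ U j` then `⁅U i, U j⁆ ≤ U i ⊓ U j = ⊥`), so `A = ⨆ U i` is abelian. If `W` is
another one with `W ≰ A`, then `W ⊓ A = ⊥` (`W ⊓ A` is normal), and `Fin.snoc U W` is a longer
family (`|A ⊔ W| = |A| |W|`). -/
theorem exists_family (Q : Type) [Group Q] [Finite Q] : ∃ (r : ℕ) (U : Fin r → Subgroup Q),
    (∀ i, IsChief (U i) ⊥) ∧ (∀ x ∈ ⨆ i, U i, ∀ y ∈ ⨆ i, U i, x * y = y * x) ∧
    Nat.card ↥(⨆ i, U i) = ∏ i, Nat.card (U i) ∧
    ∀ W : Subgroup Q, IsChief W ⊥ → (∀ x ∈ W, ∀ y ∈ W, x * y = y * x) → W ≤ ⨆ i, U i := by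
  obtain ⟨r, ⟨U, hU, hcomm, hcard⟩, hmax⟩ : ∃ r : ℕ, (∃ U : Fin r → Subgroup Q,
      (∀ i, IsChief (U i) ⊥) ∧ (∀ x ∈ ⨆ i, U i, ∀ y ∈ ⨆ i, U i, x * y = y * x) ∧
      Nat.card ↥(⨆ i, U i) = ∏ i, Nat.card (U i)) ∧ ¬ ∃ U : Fin (r + 1) → Subgroup Q,
      (∀ i, IsChief (U i) ⊥) ∧ (∀ x ∈ ⨆ i, U i, ∀ y ∈ ⨆ i, U i, x * y = y * x) ∧
      Nat.card ↥(⨆ i, U i) = ∏ i, Nat.card (U i) := by
    by_contra hno
    push Not at hno
    have hall : ∀ r : ℕ, ∃ U : Fin r → Subgroup Q,
      (∀ i, IsChief (U i) ⊥) ∧ (∀ x ∈ ⨆ i, U i, ∀ y ∈ ⨆ i, U i, x * y = y * x) ∧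
      Nat.card ↥(⨆ i, U i) = ∏ i, Nat.card (U i) := by
      intro r
      induction r with
      | zero =>
        refine ⟨fun i => i.elim0, fun i => i.elim0, ?_, ?_⟩
        · intro x hx y hy
          rw [iSup_of_empty, Subgroup.mem_bot] at hx hy
          rw [hx, hy]
        · rw [iSup_of_empty]
          simp
      | succ r ih => exact hno r ih
    obtain ⟨U, hU, _, hcard⟩ := hall (Nat.card Q)
    have h1 : 2 ^ Nat.card Q ≤ ∏ i, Nat.card (U i) := by
      have h2 : ∏ _i : Fin (Nat.card Q), 2 ≤ ∏ i, Nat.card (U i) :=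
        prod_le_prod' fun i _ => FratC_two_le (hU i)
      rwa [prod_const, card_univ, Fintype.card_fin] at h2
    have h3 : Nat.card ↥(⨆ i, U i) ≤ Nat.card Q := Subgroup.card_le_card_group _
    have h4 : Nat.card Q < 2 ^ Nat.card Q := Nat.lt_two_pow_self
    omega
  refine ⟨r, U, hU, hcomm, hcard, fun W hW hWc => ?_⟩
  by_contra hWA
  apply hmax
  have hAn : (⨆ i, U i).Normal := FratC_iSup_normal U fun i => (hU i).nH
  have hWn : W.Normal := hW.nH
  have hinf : (⨆ i, U i) ⊓ W = ⊥ := by
    rcases hW.min ((⨆ i, U i) ⊓ W) inferInstance bot_le inf_le_right with h | h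
    · exact h
    · exact absurd (inf_eq_right.1 h) hWA
  have hAW : ∀ x ∈ ⨆ i, U i, ∀ y ∈ W, x * y = y * x := by
    intro x hx y hy
    have h1 : ⁅x, y⁆ ∈ (⨆ i, U i) ⊓ W := by
      refine Subgroup.mem_inf.2 ⟨?_, ?_⟩
      · have h2 : ⁅x, y⁆ = x * (y * x⁻¹ * y⁻¹) := by
          rw [commutatorElement_def]
          group
        rw [h2]
        exact mul_mem hx (hAn.conj_mem _ (inv_mem hx) y)
      · rw [commutatorElement_def]
        exact mul_mem (hWn.conj_mem _ hy x) (inv_mem hy)
    rw [hinf, Subgroup.mem_bot, commutatorElement_eq_one_iff_mul_comm] at h1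
    exact h1
  have hsup : (⨆ i, (Fin.cons W U : Fin (r + 1) → Subgroup Q) i) = (⨆ i, U i) ⊔ W := by
    apply le_antisymm
    · apply iSup_le
      intro i
      refine Fin.cases ?_ (fun i => ?_) i
      · rw [Fin.cons_zero]
        exact le_sup_right
      · rw [Fin.cons_succ]
        exact le_trans (le_iSup U i) le_sup_left
    · apply sup_le
      · apply iSup_le
        intro i
        have h1 := le_iSup (Fin.cons W U : Fin (r + 1) → Subgroup Q) i.succ
        rwa [Fin.cons_succ] at h1
      · have h1 := le_iSup (Fin.cons W U : Fin (r + 1) → Subgroup Q) 0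
        rwa [Fin.cons_zero] at h1
  refine ⟨Fin.cons W U, fun i => ?_, ?_, ?_⟩
  · refine Fin.cases ?_ (fun i => ?_) i
    · rw [Fin.cons_zero]
      exact hW
    · rw [Fin.cons_succ]
      exact hU i
  · rw [hsup]
    intro x hx y hy
    have hx1 : x ∈ (((⨆ i, U i) ⊔ W : Subgroup Q) : Set Q) := hx
    have hy1 : y ∈ (((⨆ i, U i) ⊔ W : Subgroup Q) : Set Q) := hy
    rw [Subgroup.mul_normal] at hx1 hy1
    obtain ⟨a, ha, b, hb, rfl⟩ := hx1
    obtain ⟨c, hc, d, hd, rfl⟩ := hy1
    change a * b * (c * d) = c * d * (a * b)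
    have e1 : b * c = c * b := (hAW c hc b hb).symm
    have e2 : d * a = a * d := (hAW a ha d hd).symm
    have e3 : a * c = c * a := hcomm a ha c hc
    have e4 : b * d = d * b := hWc b hb d hd
    calc a * b * (c * d) = a * (b * c) * d := by group
      _ = a * (c * b) * d := by rw [e1]
      _ = (a * c) * (b * d) := by group
      _ = (c * a) * (d * b) := by rw [e3, e4]
      _ = c * (a * d) * b := by group
      _ = c * (d * a) * b := by rw [e2]
      _ = c * d * (a * b) := by group
  · rw [hsup, FratC_card_sup _ _ hinf, hcard, Fin.prod_univ_succ]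
    simp only [Fin.cons_zero, Fin.cons_succ]
    rw [mul_comm]

/-- PROOF. If `M ⊔ ⨆_(i ∈ I) U i = ⊤` then
`|Q| ≤ |M| ∏_(i ∈ I) |U i| < |M| ∏_i |U i| = |M| |⨆ U i| = |Q|` (`2 ≤ |U i|`, `A ⊓ M = ⊥`,
`|⨆_(i ∈ I) U i| ≤ ∏_(i ∈ I) |U i|` since the `U i` are normal, `A` is normal). -/
theorem proper_of_family {Q : Type} [Group Q] [Finite Q] {r : ℕ} (U : Fin r → Subgroup Q)
    (hU : ∀ i, IsChief (U i) ⊥) (hcard : Nat.card ↥(⨆ i, U i) = ∏ i, Nat.card (U i))
    (M : Subgroup Q) (h1 : (⨆ i, U i) ⊔ M = ⊤) (h2 : (⨆ i, U i) ⊓ M = ⊥) (I : Finset (Fin r))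
    (hI : I ≠ univ) : M ⊔ ⨆ i ∈ I, U i ≠ ⊤ := by
  intro htop
  have hnI : ∀ I : Finset (Fin r), (⨆ i ∈ I, U i).Normal := fun I =>
    FratC_iSup_normal _ fun i => FratC_iSup_normal _ fun _ => (hU i).nH
  have hle : ∀ I : Finset (Fin r), Nat.card ↥(⨆ i ∈ I, U i) ≤ ∏ i ∈ I, Nat.card (U i) := by
    intro I
    induction I using Finset.induction_on with
    | empty => simp
    | insert a s ha ih =>
      rw [Finset.iSup_insert, prod_insert ha]
      have := hnI s
      exact le_trans (FratC_card_sup_le _ _) (Nat.mul_le_mul_left _ ih)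
  have hAn : (⨆ i, U i).Normal := FratC_iSup_normal U fun i => (hU i).nH
  have hQ : Nat.card Q = Nat.card M * ∏ i, Nat.card (U i) := by
    rw [← hcard, ← FratC_card_sup M (⨆ i, U i) (by rw [inf_comm]; exact h2), sup_comm, h1,
      Subgroup.card_top]
  have hQ2 : Nat.card Q ≤ Nat.card M * ∏ i ∈ I, Nat.card (U i) := by
    have := hnI I
    calc Nat.card Q = Nat.card ↥(M ⊔ ⨆ i ∈ I, U i) := by rw [htop, Subgroup.card_top]
      _ ≤ Nat.card M * Nat.card ↥(⨆ i ∈ I, U i) := FratC_card_sup_le _ _
      _ ≤ _ := Nat.mul_le_mul_left _ (hle I)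
  obtain ⟨j, hj⟩ : ∃ j, j ∉ I := by
    by_contra hno
    push Not at hno
    exact hI (eq_univ_iff_forall.2 hno)
  have h3 : ∏ i ∈ I, Nat.card (U i) ≤ ∏ i ∈ univ.erase j, Nat.card (U i) := by
    apply prod_le_prod_of_subset_of_one_le'
    · intro i hi
      exact mem_erase.2 ⟨fun hij => hj (hij ▸ hi), mem_univ i⟩
    · intro i _ _
      exact le_trans one_le_two (FratC_two_le (hU i))
  have h4 : ∏ i, Nat.card (U i) = Nat.card (U j) * ∏ i ∈ univ.erase j, Nat.card (U i) :=
    (mul_prod_erase univ (fun i => Nat.card (U i)) (mem_univ j)).symm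
  have h5 := FratC_two_le (hU j)
  have h6 : 0 < ∏ i ∈ univ.erase j, Nat.card (U i) := prod_pos fun i _ => Nat.card_pos
  have h7 : 0 < Nat.card M := Nat.card_pos
  have h8 : ∏ i ∈ I, Nat.card (U i) < ∏ i, Nat.card (U i) := by
    rw [h4]
    nlinarith
  have h9 := Nat.mul_lt_mul_of_pos_left h8 h7
  omega

end MP799fdf
end

section

/-! # Soluble residuals of subgroups -/

set_option autoImplicit false

open scoped commutatorElement

namespace MP799fdf

variable {K K' : Type*} [Group K] [Group K']

private theorem dser_normal (H : Subgroup K) (hH : H.Normal) (n : ℕ) : (dser H n).Normal := by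
  induction n with
  | zero => exact hH
  | succ n ih => exact Subgroup.commutator_normal _ _

private theorem dser_anti (H : Subgroup K) : Antitone (dser H) :=
  antitone_nat_of_succ_le fun n => (dser H n).commutator_le_self

private theorem dser_stable (H : Subgroup K) {n : ℕ} (h : dser H (n + 1) = dser H n) (m : ℕ) :
    dser H (n + m) = dser H n := by
  induction m with
  | zero => rfl
  | succ m ih =>
    have e : dser H (n + (m + 1)) = ⁅dser H (n + m), dser H (n + m)⁆ := rfl
    rw [e, ih]
    exact h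

private theorem res_of_stable (H : Subgroup K) {n : ℕ} (h : dser H (n + 1) = dser H n) :
    res H = dser H n := by
  apply le_antisymm (iInf_le _ n)
  refine le_iInf fun m => ?_
  rcases le_total n m with hm | hm
  · obtain ⟨k, rfl⟩ := Nat.exists_eq_add_of_le hm
    rw [dser_stable H h k]
  · exact dser_anti H hm

private theorem dser_map (f : K →* K') (H : Subgroup K) (n : ℕ) :
    (dser H n).map f = dser (H.map f) n := by
  induction n with
  | zero => rfl
  | succ n ih =>
    have e : dser H (n + 1) = ⁅dser H n, dser H n⁆ := rfl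
    have e' : dser (H.map f) (n + 1) = ⁅dser (H.map f) n, dser (H.map f) n⁆ := rfl
    rw [e, e', Subgroup.map_commutator, ih]

private theorem dser_mono {H H' : Subgroup K} (h : H ≤ H') (n : ℕ) : dser H n ≤ dser H' n := by
  induction n with
  | zero => exact h
  | succ n ih => exact Subgroup.commutator_mono ih ih

private theorem dser_solv (S : Subgroup K) (hS : Group.IsSolvable S) : ∃ n, dser S n = ⊥ := by
  obtain ⟨n, hn⟩ := hS.solvable
  refine ⟨n, ?_⟩
  have : ∀ m, dser S m = (derivedSeries S m).map S.subtype := by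
    intro m
    induction m with
    | zero =>
      rw [derivedSeries_zero, ← MonoidHom.range_eq_map, Subgroup.range_subtype]
      rfl
    | succ m ih =>
      have e : dser S (m + 1) = ⁅dser S m, dser S m⁆ := rfl
      rw [e, derivedSeries_succ, Subgroup.map_commutator, ih]
  rw [this, hn, Subgroup.map_bot]

/-- PROOF. Induction, `Subgroup.commutator_normal`; infimum of normal subgroups. -/
theorem res_normal (H : Subgroup K) (hH : H.Normal) : (res H).Normal :=
  Subgroup.normal_iInf_normal fun n => dser_normal H hH n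

/-- PROOF. `dser H` is antitone; finitely many subgroups. -/
theorem res_eq [Finite K] (H : Subgroup K) : ∃ n, res H = dser H n ∧ dser H (n + 1) = dser H n := by
  by_contra hcon
  push Not at hcon
  have h1 : ∀ n, dser H (n + 1) ≠ dser H n := fun n h => hcon n (res_of_stable H h) h
  have h2 : StrictAnti (dser H) := strictAnti_nat_of_succ_lt fun n =>
    lt_of_le_of_ne (dser_anti H (Nat.le_succ n)) (h1 n)
  exact not_injective_infinite_finite _ h2.injective

theorem res_le (H : Subgroup K) : res H ≤ H := iInf_le (dser H) 0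

/-- PROOF. `res_eq`. -/
theorem res_perfect [Finite K] (H : Subgroup K) : ⁅res H, res H⁆ = res H := by
  obtain ⟨n, h1, h2⟩ := res_eq H
  rw [h1]
  exact h2

/-- PROOF. `(dser H n).map f = dser (H.map f) n` by induction (`Subgroup.map_commutator`), and all
the chains become constant. -/
theorem res_map [Finite K] [Finite K'] (f : K →* K') (H : Subgroup K) :
    (res H).map f = res (H.map f) := by
  obtain ⟨n, h1, h2⟩ := res_eq H
  have h3 : dser (H.map f) (n + 1) = dser (H.map f) n := by
    rw [← dser_map, ← dser_map, h2]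
  rw [h1, res_of_stable _ h3, dser_map]

/-- PROOF. `dser R n = R` for all `n`. -/
theorem res_of_perfect (R : Subgroup K) (h : ⁅R, R⁆ = R) : res R = R :=
  res_of_stable R (n := 0) h

/-- A perfect subgroup `R` of `C ⊔ S` with `C` normal and `S` soluble is in `C`.
PROOF. In `K ⧸ C` the image of `R` is perfect and contained in the image of `S`, which is soluble;
a soluble perfect group is trivial (`Group.IsPerfect`, `IsPerfect.not_isSolvable`, or the derived
series). -/
theorem perfect_le (R C S : Subgroup K) (hC : C.Normal) (hS : Group.IsSolvable S)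
    (hR : ⁅R, R⁆ = R) (hle : R ≤ C ⊔ S) : R ≤ C := by
  obtain ⟨n, hn⟩ := dser_solv S hS
  have h1 : R.map (QuotientGroup.mk' C) ≤ S.map (QuotientGroup.mk' C) := by
    refine (Subgroup.map_mono hle).trans ?_
    rw [Subgroup.map_sup]
    refine sup_le ?_ le_rfl
    have : C.map (QuotientGroup.mk' C) = ⊥ := by
      rw [Subgroup.map_eq_bot_iff, QuotientGroup.ker_mk']
    rw [this]
    exact bot_le
  have h2 : ∀ m, dser R m = R := fun m => by
    have := dser_stable R (n := 0) hR m
    rwa [Nat.zero_add] at this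
  have h3 : R.map (QuotientGroup.mk' C) ≤ ⊥ := by
    calc R.map (QuotientGroup.mk' C) = (dser R n).map (QuotientGroup.mk' C) := by rw [h2]
      _ = dser (R.map (QuotientGroup.mk' C)) n := dser_map _ _ _
      _ ≤ dser (S.map (QuotientGroup.mk' C)) n := dser_mono h1 n
      _ = (dser S n).map (QuotientGroup.mk' C) := (dser_map _ _ _).symm
      _ = ⊥ := by rw [hn, Subgroup.map_bot]
  rwa [le_bot_iff, Subgroup.map_eq_bot_iff, QuotientGroup.ker_mk'] at h3

/-- Quotients inherit the property `CF`.

PROOF. Let `R', Y'` be given in `B`, `R' ` perfect, `x' ∈ R'` with all `⁅x', r'⁆ ∈ Y'`. Let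
`R = res (R'.comap f)`, perfect and normal, `R.map f = res R' = R'`, `Y = R ⊓ Y'.comap f`. Write
`x' = f x`, `x ∈ R`. All `⁅x, r⁆`, `r ∈ R`, are in `Y`, so `x ∈ Y`, `x' ∈ Y'`. -/
theorem cf_surj {A B : Type*} [Group A] [Finite A] [Group B] [Finite B] (f : A →* B)
    (hf : Function.Surjective f) (h : CF A) : CF B := by
  intro R' Y' hR' hY' _ hperf x' hx' hcomm
  have hn : (res (R'.comap f)).Normal := res_normal _ (hR'.comap f)
  have hmap : (res (R'.comap f)).map f = R' := by
    rw [res_map, Subgroup.map_comap_eq_self_of_surjective hf, res_of_perfect R' hperf]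
  have hYn : (res (R'.comap f) ⊓ Y'.comap f).Normal := by
    have := hY'.comap f
    infer_instance
  rw [← hmap] at hx'
  obtain ⟨x, hx, rfl⟩ := hx'
  have := h (res (R'.comap f)) (res (R'.comap f) ⊓ Y'.comap f) hn hYn inf_le_left
    (res_perfect _) x hx (by
      intro r hr
      refine Subgroup.mem_inf.2 ⟨?_, ?_⟩
      · exact Subgroup.commutator_le_self _ (Subgroup.commutator_mem_commutator hx hr)
      · rw [Subgroup.mem_comap, map_commutatorElement]
        apply hcomm
        exact Subgroup.mem_comap.1 (res_le _ hr))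
  exact (Subgroup.mem_inf.1 this).2

/-- Subdirect products inherit the property `CF`.

PROOF. Let `R, Y` be normal in `K`, `Y ≤ R`, `R` perfect, `x ∈ R`, `⁅x, r⁆ ∈ Y` for all `r ∈ R`.
`R.map f` is perfect and normal, so `f x ∈ Y.map f`, i.e. `x = y a` with `y ∈ Y`, `a ∈ R ⊓ ker f`.
For `r ∈ R`: `⁅a, r⁆ ∈ Y` (`a ≡ x` modulo `Y`) and `⁅a, r⁆ ∈ ker f`. Apply `CF B` to `R.map g`,
`(Y ⊓ ker f).map g`, `g a`: `g a = g b` with `b ∈ Y ⊓ ker f`; `a b⁻¹ ∈ ker f ⊓ ker g = 1`. So
`a ∈ Y`, `x ∈ Y`. -/
theorem cf_sub {K A B : Type*} [Group K] [Group A] [Group B] (f : K →* A) (g : K →* B)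
    (hf : Function.Surjective f) (hg : Function.Surjective g) (hA : CF A) (hB : CF B)
    (h : ∀ x, f x = 1 → g x = 1 → x = 1) : CF K := by
  intro R Y hR hY hYR hperf x hx hcomm
  have h1 : f x ∈ Y.map f := by
    refine hA (R.map f) (Y.map f) (hR.map f hf) (hY.map f hf) (Subgroup.map_mono hYR) ?_ _
      (Subgroup.mem_map_of_mem f hx) ?_
    · rw [← Subgroup.map_commutator, hperf]
    · rintro _ ⟨r, hr, rfl⟩
      rw [← map_commutatorElement]
      exact Subgroup.mem_map_of_mem f (hcomm r hr)
  obtain ⟨y, hy, hyx⟩ := h1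
  have hak : f (y⁻¹ * x) = 1 := by
    rw [map_mul, map_inv, hyx, inv_mul_cancel]
  have haR : y⁻¹ * x ∈ R := R.mul_mem (R.inv_mem (hYR hy)) hx
  have hac : ∀ r ∈ R, ⁅y⁻¹ * x, r⁆ ∈ Y ⊓ f.ker := by
    intro r hr
    refine Subgroup.mem_inf.2 ⟨?_, ?_⟩
    · have e : ⁅y⁻¹ * x, r⁆ = y⁻¹ * ⁅x, r⁆ * (r * y * r⁻¹) := by
        simp only [commutatorElement_def]
        group
      rw [e]
      exact Y.mul_mem (Y.mul_mem (Y.inv_mem hy) (hcomm r hr)) (hY.conj_mem y hy r)
    · rw [MonoidHom.mem_ker, map_commutatorElement, hak, commutatorElement_one_left]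
  have h2 : g (y⁻¹ * x) ∈ (Y ⊓ f.ker).map g := by
    have hYf : (Y ⊓ f.ker).Normal := inferInstance
    refine hB (R.map g) ((Y ⊓ f.ker).map g) (hR.map g hg) (hYf.map g hg)
      (Subgroup.map_mono (inf_le_left.trans hYR)) ?_ _ (Subgroup.mem_map_of_mem g haR) ?_
    · rw [← Subgroup.map_commutator, hperf]
    · rintro _ ⟨r, hr, rfl⟩
      rw [← map_commutatorElement]
      exact Subgroup.mem_map_of_mem g (hac r hr)
  obtain ⟨b, hb, hbe⟩ := h2
  obtain ⟨hbY, hbf⟩ := Subgroup.mem_inf.1 hb
  have h3 : y⁻¹ * x * b⁻¹ = 1 := by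
    apply h
    · rw [map_mul, hak, map_inv, MonoidHom.mem_ker.1 hbf, inv_one, one_mul]
    · rw [map_mul, map_inv, hbe, mul_inv_cancel]
  have h4 : x = y * b := by
    have : y⁻¹ * x = b := by
      rwa [mul_inv_eq_one] at h3
    rw [← this]
    group
  rw [h4]
  exact Y.mul_mem hy hbY

end MP799fdf
end

section

/-! # The Frattini subgroup -/

set_option autoImplicit false

open scoped commutatorElement

namespace MP799fdf

open Finset

/-- PROOF. The maximal subgroups of `K` contain `frattini K` and are the preimages of the maximal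
subgroups of the quotient (`Subgroup.isCoatom_comap_of_surjective` gives one direction; for the
other: if `M` is a coatom of `K`, then `M.map (mk')` is a coatom, since `M = comap (map M)`). So the
preimage of `frattini (K ⧸ frattini K)` is contained in `frattini K`. -/
theorem frattini_quot (K : Type) [Group K] [Finite K] :
    frattini (K ⧸ frattini K) = ⊥ := by
  have hle : (frattini (K ⧸ frattini K)).comap (QuotientGroup.mk' (frattini K)) ≤ frattini K := by
    conv_rhs => rw [frattini, Order.radical]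
    refine le_iInf₂ fun M hM => ?_
    have hM' : IsCoatom M := hM
    have hFM : frattini K ≤ M := frattini_le_coatom hM'
    have hcm : (M.map (QuotientGroup.mk' (frattini K))).comap (QuotientGroup.mk' (frattini K)) =
        M := by
      rw [Subgroup.comap_map_eq, QuotientGroup.ker_mk', sup_eq_left.2 hFM]
    have hco : IsCoatom (M.map (QuotientGroup.mk' (frattini K))) := by
      refine ⟨fun h => hM'.1 ?_, fun X hX => ?_⟩
      · rw [← hcm, h, Subgroup.comap_top]
      · have h1 : M < X.comap (QuotientGroup.mk' (frattini K)) := by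
          rw [← hcm]
          exact (Subgroup.comap_lt_comap_of_surjective
            (QuotientGroup.mk'_surjective (frattini K))).2 hX
        have h2 := hM'.2 _ h1
        have h3 := Subgroup.map_comap_eq_self_of_surjective
          (QuotientGroup.mk'_surjective (frattini K)) X
        rw [← h3, h2, Subgroup.map_top_of_surjective _
          (QuotientGroup.mk'_surjective (frattini K))]
    calc (frattini (K ⧸ frattini K)).comap (QuotientGroup.mk' (frattini K))
        ≤ (M.map (QuotientGroup.mk' (frattini K))).comap (QuotientGroup.mk' (frattini K)) :=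
          Subgroup.comap_mono (frattini_le_coatom hco)
      _ = M := hcm
  rw [eq_bot_iff, ← Subgroup.map_comap_eq_self_of_surjective
    (QuotientGroup.mk'_surjective (frattini K)) (frattini (K ⧸ frattini K)), Subgroup.map_le_iff_le_comap]
  refine hle.trans ?_
  intro x hx
  rw [Subgroup.mem_comap, Subgroup.mem_bot, QuotientGroup.mk'_apply, QuotientGroup.eq_one_iff]
  exact hx

/-- A normal subgroup `A ≥ frattini K` with `A / frattini K` abelian is nilpotent.

PROOF. As `frattini_nilpotent` in Mathlib: let `P` be a Sylow `p`-subgroup of `A`, `Q` its image in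
`K`. `Q ⊔ frattini K` is normal in `K`: modulo `frattini K`, `Q` is the Sylow `p`-subgroup of the
abelian group `A / frattini K`, so it is characteristic in it. (Elementwise: if `g : K`, `x ∈ Q`,
then `g x g⁻¹` is a `p`-element of `A` modulo `frattini K`, and `Q` contains all `p`-elements of `A`
modulo `frattini K`, because `A / frattini K` is abelian.) `P` is a Sylow `p`-subgroup of the normal
subgroup `T = Q ⊔ frattini K` (`T ≤ A`). Frattini argument (`Sylow.normalizer_sup_eq_top`):
`normalizer Q ⊔ T = ⊤`, so `normalizer Q ⊔ frattini K = ⊤`, `normalizer Q = ⊤`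
(`frattini_nongenerating`). So all Sylow subgroups of `A` are normal;
`Group.isNilpotent_of_finite_tfae`. -/
theorem nilpotent_of_quot {K : Type} [Group K] [Finite K] (A : Subgroup K) (hA : A.Normal)
    (hle : frattini K ≤ A) (hab : ⁅A, A⁆ ≤ frattini K) : Group.IsNilpotent A := by
  have q := (Group.isNilpotent_of_finite_tfae (G := A)).out 0 3
  rw [q]; clear q
  intro p hp P
  set Q : Subgroup K := (P : Subgroup A).map A.subtype with hQ
  have hQA : Q ≤ A := by
    rw [hQ]
    exact Subgroup.map_subtype_le _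
  have hQP : Q.subgroupOf A = (P : Subgroup A) := by
    rw [hQ, Subgroup.subgroupOf, Subgroup.comap_map_eq_self_of_injective A.subtype_injective]
  have hQpg : IsPGroup p Q := P.isPGroup'.map A.subtype
  set T : Subgroup K := Q ⊔ frattini K with hT
  have hTA : T ≤ A := sup_le hQA hle
  have hQT : Q ≤ T := le_sup_left
  have hmul := Subgroup.relIndex_mul_relIndex Q T A hQT hTA
  have hndvd : ¬ p ∣ Q.relIndex A := by
    rw [Subgroup.relIndex, hQP]
    exact P.not_dvd_index
  have hnT : ¬ p ∣ T.relIndex A := fun h => hndvd (by rw [← hmul]; exact dvd_mul_of_dvd_right h _)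
  have hnQ : ¬ p ∣ Q.relIndex T := fun h => hndvd (by rw [← hmul]; exact dvd_mul_of_dvd_left h _)
  -- `T` is normal in `A`
  have hTn : (T.subgroupOf A).Normal := by
    refine ⟨fun x hx g => ?_⟩
    rw [Subgroup.mem_subgroupOf] at hx ⊢
    have h1 : ⁅(g : K), (x : K)⁆ ∈ T :=
      (le_sup_right : frattini K ≤ T) (hab (Subgroup.commutator_mem_commutator g.2 x.2))
    have h2 : ((g * x * g⁻¹ : A) : K) = ⁅(g : K), (x : K)⁆ * (x : K) := by
      simp [commutatorElement_def]
    rw [h2]
    exact T.mul_mem h1 hx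
  -- all `p`-elements of `A` are in `T`
  have hpel : ∀ y : A, (∃ k : ℕ, y ^ p ^ k = 1) → (y : K) ∈ T := by
    rintro y ⟨k, hk⟩
    have h1 : y ^ (T.subgroupOf A).index ∈ T.subgroupOf A := Subgroup.pow_index_mem _ y
    have h2 : Nat.Coprime (T.subgroupOf A).index (orderOf y) := by
      refine Nat.Coprime.coprime_dvd_right (orderOf_dvd_of_pow_eq_one hk) ?_
      exact (Nat.Coprime.pow_right k ((Nat.Prime.coprime_iff_not_dvd hp.out).2 hnT).symm)
    obtain ⟨m, hm⟩ := exists_pow_eq_self_of_coprime h2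
    have h3 : y ∈ T.subgroupOf A := by
      rw [← hm]
      exact Subgroup.pow_mem _ h1 m
    exact Subgroup.mem_subgroupOf.1 h3
  have hTN : T.Normal := by
    refine ⟨fun x hx g => ?_⟩
    rw [hT, Subgroup.mem_sup_of_normal_right] at hx
    obtain ⟨y, hy, z, hz, rfl⟩ := hx
    have h1 : g * (y * z) * g⁻¹ = (g * y * g⁻¹) * (g * z * g⁻¹) := by group
    rw [h1]
    refine T.mul_mem ?_ ((le_sup_right : frattini K ≤ T) (Subgroup.Normal.conj_mem inferInstance z hz g))
    have hyA : g * y * g⁻¹ ∈ A := hA.conj_mem y (hQA hy) g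
    refine hpel ⟨g * y * g⁻¹, hyA⟩ ?_
    obtain ⟨k, hk⟩ := hQpg ⟨y, hy⟩
    refine ⟨k, ?_⟩
    have hk' : y ^ p ^ k = 1 := by
      have := congrArg Subtype.val hk
      simpa using this
    apply Subtype.ext
    rw [SubmonoidClass.mk_pow]
    change (g * y * g⁻¹) ^ p ^ k = 1
    rw [conj_pow, hk', mul_one, mul_inv_cancel]
  -- `Q` as a Sylow subgroup of `T`
  have hpT : IsPGroup p (Q.subgroupOf T) := by
    exact hQpg.comap_of_injective T.subtype T.subtype_injective
  let P' : Sylow p T := hpT.toSylow (by rw [← Subgroup.relIndex]; exact hnQ)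
  have h1 := Sylow.normalizer_sup_eq_top P'
  have h2 : ((P' : Subgroup T).map T.subtype) = Q := by
    rw [IsPGroup.toSylow_coe]
    exact Subgroup.map_subgroupOf_eq_of_le hQT
  rw [h2] at h1
  have h3 : Subgroup.normalizer (Q : Set K) ⊔ frattini K = ⊤ := by
    rw [eq_top_iff, ← h1]
    refine sup_le le_sup_left ?_
    rw [hT]
    exact sup_le (le_trans Subgroup.le_normalizer le_sup_left) le_sup_right
  have h4 := frattini_nongenerating h3
  have h5 : Q.Normal := Subgroup.normalizer_eq_top_iff.mp h4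
  exact h5.of_map_subtype

end MP799fdf
end
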