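import Pool.Agent.Lib.MP_799fdf_al.Defs
import Pool.Agent.Lib.MP_799fdf_al.FratA

section

/-! # Formations: closure lemmas -/

set_option autoImplicit false

open scoped commutatorElement

namespace MP799fdf

/-- Closure under surjections. PROOF. `QuotientGroup.quotientKerEquivOfSurjective`, `quot`, `iso`. -/
theorem Formation.of_surj (F : Formation) {A B : Type} [Group A] [Finite A] [Group B] [Finite B]
    (f : A →* B) (hf : Function.Surjective f) (h : F.mem A) : F.mem B :=
  F.iso _ _ (QuotientGroup.quotientKerEquivOfSurjective f hf) (F.quot A f.ker h)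

/-- Closure under subdirect products. PROOF. `K/ker f ≅ A`, `K/ker g ≅ B`, so
`K/(ker f ⊓ ker g) ∈ F`, and `K → K/(ker f ⊓ ker g)` is bijective. -/
theorem Formation.of_two (F : Formation) {K A B : Type} [Group K] [Finite K] [Group A] [Finite A]
    [Group B] [Finite B] (f : K →* A) (g : K →* B) (hf : Function.Surjective f)
    (hg : Function.Surjective g) (hA : F.mem A) (hB : F.mem B)
    (h : ∀ x, f x = 1 → g x = 1 → x = 1) : F.mem K := by
  have h1 : F.mem (K ⧸ f.ker) :=
    F.iso _ _ (QuotientGroup.quotientKerEquivOfSurjective f hf).symm hA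
  have h2 : F.mem (K ⧸ g.ker) :=
    F.iso _ _ (QuotientGroup.quotientKerEquivOfSurjective g hg).symm hB
  have h3 := F.sub K f.ker g.ker h1 h2
  have hbij : Function.Bijective (QuotientGroup.mk' (f.ker ⊓ g.ker)) := by
    refine ⟨?_, QuotientGroup.mk'_surjective _⟩
    rw [injective_iff_map_eq_one]
    intro x hx
    rw [← MonoidHom.mem_ker, QuotientGroup.ker_mk'] at hx
    exact h x (MonoidHom.mem_ker.1 hx.1) (MonoidHom.mem_ker.1 hx.2)
  exact F.iso _ _ (MulEquiv.ofBijective _ hbij).symm h3

/-- Closure under subdirect products with a finite nonempty set of factors. PROOF. Induction on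
finite nonempty sets `s` of indices: `K / ⨅_(j ∈ s) ker (f j) ∈ F` (`of_two` for
`K/(M ⊓ N) → K/M, K/N`). -/
theorem Formation.of_family (F : Formation) {K J : Type} [Group K] [Finite K] [Finite J]
    [Nonempty J] (A : J → Type) [∀ j, Group (A j)] [∀ j, Finite (A j)] (f : ∀ j, K →* A j)
    (hf : ∀ j, Function.Surjective (f j)) (hA : ∀ j, F.mem (A j))
    (h : ∀ x, (∀ j, f j x = 1) → x = 1) : F.mem K := by
  classical
  have := Fintype.ofFinite J
  have key : ∀ s : Finset J, s.Nonempty → ∀ (N : Subgroup K) [N.Normal],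
      (∀ x, x ∈ N ↔ ∀ j ∈ s, f j x = 1) → F.mem (K ⧸ N) := by
    intro s hs
    induction s using Finset.cons_induction with
    | empty => exact absurd hs Finset.not_nonempty_empty
    | cons j s hj ih =>
      intro N hN hNmem
      by_cases hsn : s.Nonempty
      · have hN2 : (⨅ i ∈ s, (f i).ker : Subgroup K).Normal :=
          Subgroup.normal_iInf_normal fun i => Subgroup.normal_iInf_normal fun _ => inferInstance
        have h2 : F.mem (K ⧸ (⨅ i ∈ s, (f i).ker : Subgroup K)) := by
          apply ih hsn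
          intro x
          simp [Subgroup.mem_iInf, MonoidHom.mem_ker]
        have h1 : F.mem (K ⧸ (f j).ker) :=
          F.iso _ _ (QuotientGroup.quotientKerEquivOfSurjective (f j) (hf j)).symm (hA j)
        have h3 := F.sub K (f j).ker (⨅ i ∈ s, (f i).ker) h1 h2
        have hN3 : N = (f j).ker ⊓ ⨅ i ∈ s, (f i).ker := by
          ext x
          rw [hNmem, Subgroup.mem_inf]
          simp [Subgroup.mem_iInf, MonoidHom.mem_ker]
        subst hN3
        exact h3
      · have hs0 : s = ∅ := Finset.not_nonempty_iff_eq_empty.1 hsn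
        subst hs0
        have hN3 : N = (f j).ker := by
          ext x
          rw [hNmem]
          simp [MonoidHom.mem_ker]
        subst hN3
        exact F.iso _ _ (QuotientGroup.quotientKerEquivOfSurjective (f j) (hf j)).symm (hA j)
  have h1 := key Finset.univ Finset.univ_nonempty (⊥ : Subgroup K) (by
    intro x
    constructor
    · intro hx j _
      rw [Subgroup.mem_bot.1 hx, map_one]
    · intro hx
      exact Subgroup.mem_bot.2 (h x fun j => hx j (Finset.mem_univ j)))
  exact F.iso _ _ QuotientGroup.quotientBot h1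

/-- Induction principle for `form G`. PROOF. `P` defines a formation that contains `G`. -/
theorem form_induction {G : Type} [Group G] [Finite G]
    (P : (H : Type) → [Group H] → [Finite H] → Prop)
    (hsurj : ∀ (A B : Type) [Group A] [Finite A] [Group B] [Finite B] (f : A →* B),
      Function.Surjective f → P A → P B)
    (hsub : ∀ (K A B : Type) [Group K] [Finite K] [Group A] [Finite A] [Group B] [Finite B]
      (f : K →* A) (g : K →* B), Function.Surjective f → Function.Surjective g → P A → P B →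
      (∀ x, f x = 1 → g x = 1 → x = 1) → P K)
    (hG : P G) (H : Type) [Group H] [Finite H] (hH : (form G).mem H) : P H := by
  let F : Formation :=
    { mem := P
      iso := fun A B _ _ _ _ e h => hsurj A B e.toMonoidHom e.surjective h
      quot := fun A _ _ N _ h => hsurj A (A ⧸ N) (QuotientGroup.mk' N)
        (QuotientGroup.mk'_surjective N) h
      sub := fun A _ _ N₁ N₂ _ _ h₁ h₂ => by
        refine hsub (A ⧸ (N₁ ⊓ N₂)) (A ⧸ N₁) (A ⧸ N₂)
          (QuotientGroup.map (N₁ ⊓ N₂) N₁ (MonoidHom.id A) inf_le_left)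
          (QuotientGroup.map (N₁ ⊓ N₂) N₂ (MonoidHom.id A) inf_le_right) ?_ ?_ h₁ h₂ ?_
        · intro y
          obtain ⟨x, rfl⟩ := QuotientGroup.mk'_surjective N₁ y
          exact ⟨QuotientGroup.mk' _ x, rfl⟩
        · intro y
          obtain ⟨x, rfl⟩ := QuotientGroup.mk'_surjective N₂ y
          exact ⟨QuotientGroup.mk' _ x, rfl⟩
        · intro y h1 h2
          obtain ⟨x, rfl⟩ := QuotientGroup.mk'_surjective (N₁ ⊓ N₂) y
          have h1' : ((x : A) : A ⧸ N₁) = 1 := h1
          have h2' : ((x : A) : A ⧸ N₂) = 1 := h2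
          rw [QuotientGroup.eq_one_iff] at h1' h2'
          exact (QuotientGroup.eq_one_iff x).2 ⟨h1', h2'⟩ }
  exact hH F hG

theorem mem_form (G : Type) [Group G] [Finite G] : (form G).mem G := fun _ h => h

/-- `form K ≤ F` if `K ∈ F`. -/
theorem form_le {K : Type} [Group K] [Finite K] (F : Formation) (hK : F.mem K) :
    (form K).IsSub F := fun _ _ _ h => h F hK

end MP799fdf
end

section

/-! # The Frattini subgroup -/

set_option autoImplicit false

open scoped commutatorElement

namespace MP799fdf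

open Finset

/-- An abelian normal subgroup of a finite group with trivial Frattini subgroup is complemented.

PROOF. Let `M` be a minimal subgroup with `A ⊔ M = ⊤` (exists, finite). `X = A ⊓ M` is normal in `Q`
(normalised by `M` since `A` is normal, centralised by `A`). Suppose `X ≠ ⊥`. As `frattini Q = ⊥`
there is a coatom `T` with `X ≰ T`, so `X ⊔ T = ⊤`. Then `M = X ⊔ (M ⊓ T)` (for `m ∈ M` write
`m = x t`, `x ∈ X ≤ M`, so `t ∈ M ⊓ T`). `A ⊔ (M ⊓ T) ≥ X ⊔ (M ⊓ T) = M`, so
`A ⊔ (M ⊓ T) = ⊤`, `M ⊓ T = M` by minimality, `X ≤ M ≤ T`, a contradiction. -/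
theorem exists_compl {Q : Type} [Group Q] [Finite Q] (hQ : frattini Q = ⊥) (A : Subgroup Q)
    (hA : A.Normal) (hab : ∀ x ∈ A, ∀ y ∈ A, x * y = y * x) :
    ∃ M : Subgroup Q, A ⊔ M = ⊤ ∧ A ⊓ M = ⊥ := by
  obtain ⟨M, hM⟩ := (Set.toFinite {M : Subgroup Q | A ⊔ M = ⊤}).exists_minimal ⟨⊤, sup_top_eq A⟩
  have hMt : A ⊔ M = ⊤ := hM.1
  refine ⟨M, hMt, ?_⟩
  have := hA
  -- the intersection is normal
  have hXn : (A ⊓ M).Normal := by
    constructor
    rintro x ⟨hxA, hxM⟩ g
    have hg : g ∈ A ⊔ M := by rw [hMt]; exact Subgroup.mem_top g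
    obtain ⟨a, ha, m, hm, rfl⟩ := Subgroup.mem_sup_of_normal_left.1 hg
    have h1 : m * x * m⁻¹ ∈ A := hA.conj_mem x hxA m
    have h2 : m * x * m⁻¹ ∈ M := M.mul_mem (M.mul_mem hm hxM) (M.inv_mem hm)
    have h3 : a * m * x * (a * m)⁻¹ = m * x * m⁻¹ := by
      have h4 : a * m * x * (a * m)⁻¹ = a * (m * x * m⁻¹) * a⁻¹ := by group
      rw [h4, hab a ha _ h1]
      group
    rw [h3]
    exact ⟨h1, h2⟩
  by_contra hX
  have hex : ∃ T : Subgroup Q, IsCoatom T ∧ ¬ A ⊓ M ≤ T := by
    by_contra hc
    push Not at hc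
    apply hX
    rw [eq_bot_iff, ← hQ]
    unfold frattini Order.radical
    exact le_iInf₂ fun T hT => hc T hT
  obtain ⟨T, hT, hXT⟩ := hex
  have hXTt : (A ⊓ M) ⊔ T = ⊤ := by
    apply hT.2
    refine lt_of_le_of_ne le_sup_right fun h => hXT ?_
    rw [h]
    exact le_sup_left
  have hM1 : M ≤ (A ⊓ M) ⊔ (M ⊓ T) := by
    intro m hm
    have hg : m ∈ (A ⊓ M) ⊔ T := by rw [hXTt]; exact Subgroup.mem_top m
    have := hXn
    obtain ⟨x, hx, t, ht, rfl⟩ := Subgroup.mem_sup_of_normal_left.1 hg
    have htM : t ∈ M := by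
      have : t = x⁻¹ * (x * t) := by group
      rw [this]
      exact M.mul_mem (M.inv_mem hx.2) hm
    exact Subgroup.mul_mem _ (Subgroup.mem_sup_left hx) (Subgroup.mem_sup_right ⟨htM, ht⟩)
  have hM2 : A ⊔ (M ⊓ T) = ⊤ := by
    rw [eq_top_iff, ← hMt]
    refine sup_le le_sup_left (hM1.trans (sup_le ?_ le_sup_right))
    exact inf_le_left.trans le_sup_left
  have hM3 : M ≤ M ⊓ T := hM.2 hM2 inf_le_left
  exact hXT (inf_le_right.trans (hM3.trans inf_le_right))

end MP799fdf
end

section

/-! # Lower central series of a normal subgroup -/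

set_option autoImplicit false

open scoped commutatorElement

namespace MP799fdf

variable {K K' : Type*} [Group K] [Group K']

/-- PROOF. Induction; `Subgroup.lowerCentralSeries_succ`, `Subgroup.commutator_normal`. -/
theorem gam_normal (F : Subgroup K) (hF : F.Normal) (n : ℕ) : (gam F n).Normal := by
  cases n with
  | zero => exact (inferInstance : (⊤ : Subgroup K).Normal)
  | succ n =>
    induction n with
    | zero => exact hF
    | succ n ih =>
      have ih' : (F.lowerCentralSeries n).Normal := ih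
      have : (⁅F.lowerCentralSeries n, F⁆ : Subgroup K).Normal := Subgroup.commutator_normal _ _
      exact this

/-- PROOF. `⁅X, F⁆ ≤ X` for normal `X` (and `X ≤ ⊤`). -/
theorem gam_anti (F : Subgroup K) (_hF : F.Normal) : Antitone (gam F) := by
  refine antitone_nat_of_succ_le fun n => ?_
  cases n with
  | zero => exact le_top
  | succ n => exact F.lowerCentralSeries_antitone (Nat.le_succ n)

/-- Three subgroups lemma for normal subgroups. PROOF. Pass to the quotient by the right hand side
(images of commutators are commutators of images, `Subgroup.map_commutator`) and use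
`Subgroup.commutator_commutator_eq_bot_of_rotate`. -/
theorem three (A B C : Subgroup K) (hA : A.Normal) (hB : B.Normal) (hC : C.Normal) :
    ⁅A, ⁅B, C⁆⁆ ≤ ⁅⁅A, B⁆, C⁆ ⊔ ⁅⁅A, C⁆, B⁆ := by
  have hn : (⁅⁅A, B⁆, C⁆ ⊔ ⁅⁅A, C⁆, B⁆ : Subgroup K).Normal := inferInstance
  set N : Subgroup K := ⁅⁅A, B⁆, C⁆ ⊔ ⁅⁅A, C⁆, B⁆ with hN
  have key : (⁅A, ⁅B, C⁆⁆ : Subgroup K).map (QuotientGroup.mk' N) = ⊥ := by
    rw [Subgroup.map_commutator, Subgroup.map_commutator, Subgroup.commutator_comm]
    apply Subgroup.commutator_commutator_eq_bot_of_rotate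
    · rw [Subgroup.commutator_comm (C.map _), ← Subgroup.map_commutator, ← Subgroup.map_commutator,
        Subgroup.map_eq_bot_iff, QuotientGroup.ker_mk']
      exact le_sup_right
    · rw [← Subgroup.map_commutator, ← Subgroup.map_commutator,
        Subgroup.map_eq_bot_iff, QuotientGroup.ker_mk']
      exact le_sup_left
  rwa [Subgroup.map_eq_bot_iff, QuotientGroup.ker_mk'] at key

/-- PROOF. Induction on `b` for all `a`; `b = 0`: normality; `b = 1`: definition (`a = 0`: normality);
`b + 1` with `b ≥ 1`: `three` for `gam a, gam b, F`: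
`⁅gam a, ⁅gam b, F⁆⁆ ≤ ⁅⁅gam a, gam b⁆, F⁆ ⊔ ⁅⁅gam a, F⁆, gam b⁆ ≤ ⁅gam (a+b), F⁆ ⊔ ⁅gam (a+1), gam b⁆`. -/
theorem gam_comm (F : Subgroup K) (hF : F.Normal) (a b : ℕ) :
    ⁅gam F a, gam F b⁆ ≤ gam F (a + b) := by
  have hstep : ∀ a, ⁅gam F a, F⁆ ≤ gam F (a + 1) := by
    intro a
    cases a with
    | zero =>
      have : ⁅(⊤ : Subgroup K), F⁆ ≤ F := Subgroup.commutator_le_right _ _
      exact this
    | succ a => exact le_rfl
  cases b with
  | zero =>
    have := gam_normal F hF a
    have h2 : ⁅gam F a, (⊤ : Subgroup K)⁆ ≤ gam F a := Subgroup.commutator_le_left _ _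
    exact h2
  | succ b =>
    induction b generalizing a with
    | zero => exact hstep a
    | succ b ih =>
      have ha := gam_normal F hF a
      have hb := gam_normal F hF (b + 1)
      have h1 : ⁅gam F a, gam F (b + 1 + 1)⁆ ≤
          ⁅⁅gam F a, gam F (b + 1)⁆, F⁆ ⊔ ⁅⁅gam F a, F⁆, gam F (b + 1)⁆ :=
        three (gam F a) (gam F (b + 1)) F ha hb hF
      refine h1.trans (sup_le ?_ ?_)
      · refine (Subgroup.commutator_mono (ih a) le_rfl).trans ?_
        exact hstep (a + (b + 1))
      · refine (Subgroup.commutator_mono (hstep a) le_rfl).trans ?_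
        have := ih (a + 1)
        have e : a + 1 + (b + 1) = a + (b + 1 + 1) := by ring
        rwa [e] at this

/-- The family used in the cube lemma. PROOF. `gam_comm`, `gam_anti`, `|S ∪ T| ≤ |S| + |T|`. -/
theorem gam_family {ι : Type*} [DecidableEq ι] (F : Subgroup K) (hF : F.Normal) (S T : Finset ι) :
    ⁅gam F S.card, gam F T.card⁆ ≤ gam F (S ∪ T).card :=
  (gam_comm F hF _ _).trans (gam_anti F hF (Finset.card_union_le S T))

/-- PROOF. `Subgroup.isNilpotent_iff_lowerCentralSeries`, `gam_anti`. -/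
theorem gam_nilpotent [Finite K] (F : Subgroup K) (h : Group.IsNilpotent F) :
    ∃ n, gam F (n + 1) = ⊥ :=
  (Subgroup.isNilpotent_iff_lowerCentralSeries F).1 h

end MP799fdf
end

section

/-! # Chief factors in `form G` -/

set_option autoImplicit false

open scoped commutatorElement

namespace MP799fdf

/-- PROOF. `|H : L| ≤ |G|`; `C = ⊥`. -/
theorem chief_base (G : Type) [Group G] [Finite G] : ChiefBound (Nat.card G) G := by
  intro H L _
  refine ⟨(Nat.le_of_dvd Nat.card_pos (Subgroup.relIndex_dvd_card L H)).trans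
    (Subgroup.card_le_card_group H), ⊥, inferInstance, ?_, ?_⟩
  · rw [Subgroup.commutator_bot_left]
    exact bot_le
  · rw [Subgroup.index_bot]

/-- PROOF. Let `H/L` be a chief factor of `B`. Then `comap f H / comap f L` is a chief factor of `A`
(`f` is surjective: the subgroups of `A` between them contain `ker f`, and are preimages of their
images), with the same index; if `C` is the subgroup for it, take `C.map f`. -/
theorem chief_surj {n : ℕ} {A B : Type} [Group A] [Finite A] [Group B] [Finite B] (f : A →* B)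
    (hf : Function.Surjective f) (h : ChiefBound n A) : ChiefBound n B := by
  intro H L hHL
  have hmH : (H.comap f).map f = H := Subgroup.map_comap_eq_self_of_surjective hf H
  have hch : IsChief (H.comap f) (L.comap f) := by
    refine ⟨hHL.nH.comap f, hHL.nL.comap f,
      (Subgroup.comap_lt_comap_of_surjective hf).2 hHL.lt, ?_⟩
    intro Z hZ h1 h2
    have hker : f.ker ≤ Z := by
      intro x hx
      apply h1
      rw [Subgroup.mem_comap, MonoidHom.mem_ker.1 hx]
      exact L.one_mem
    have hcm : (Z.map f).comap f = Z := Subgroup.comap_map_eq_self hker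
    have h3 : L ≤ Z.map f := by
      have := Subgroup.map_mono (f := f) h1
      rwa [Subgroup.map_comap_eq_self_of_surjective hf] at this
    have h4 : Z.map f ≤ H := Subgroup.map_le_iff_le_comap.2 h2
    rcases hHL.min (Z.map f) (hZ.map f hf) h3 h4 with h5 | h5
    · left
      rw [← hcm, h5]
    · right
      rw [← hcm, h5]
  obtain ⟨h1, C, hC, h2, h3⟩ := h _ _ hch
  refine ⟨?_, C.map f, hC.map f hf, ?_, ?_⟩
  · rwa [Subgroup.relIndex_comap, hmH] at h1
  · have h4 := Subgroup.map_mono (f := f) h2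
    rwa [Subgroup.map_commutator, hmH, Subgroup.map_comap_eq_self_of_surjective hf] at h4
  · exact (Nat.le_of_dvd (Nat.pos_of_ne_zero Subgroup.index_ne_zero_of_finite)
      (Subgroup.index_map_dvd C hf)).trans h3

/-- First case of the subdirect product: `H ⊓ ker f ≤ L`.

PROOF. `H' = H.map f`, `L' = L.map f` are normal in `A` and `H'/L'` is a chief factor: if
`x ∈ H`, `f x ∈ L'` then `x ∈ L` (`x = l k`, `k ∈ ker f ⊓ H ≤ L`). So `L' < H'`, and for `Z` normal
between `L'` and `H'` the subgroup `Z.comap f ⊓ H` is `L` or `H`. `|H' : L'| = |H : L|`. If `C` is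
the subgroup for `H'/L'`, take `C.comap f`: for `c ∈ C.comap f`, `x ∈ H` one has `f ⁅c, x⁆ ∈ L'` and
`⁅c, x⁆ ∈ H`, so `⁅c, x⁆ ∈ L`. Its index is at most the index of `C`. -/
theorem chief_case {n : ℕ} {K A : Type} [Group K] [Finite K] [Group A] [Finite A] (f : K →* A)
    (hf : Function.Surjective f) (h : ChiefBound n A) (H L : Subgroup K) (hHL : IsChief H L)
    (hk : H ⊓ f.ker ≤ L) :
    L.relIndex H ≤ n ∧ ∃ C : Subgroup K, C.Normal ∧ ⁅C, H⁆ ≤ L ∧ C.index ≤ n := by
  have hnH : H.Normal := hHL.nH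
  have hnL : L.Normal := hHL.nL
  have hmem : ∀ x ∈ H, f x ∈ L.map f → x ∈ L := by
    rintro x hx ⟨l, hl, hlx⟩
    have h1 : l⁻¹ * x ∈ L := by
      apply hk
      refine ⟨H.mul_mem (H.inv_mem (hHL.lt.le hl)) hx, ?_⟩
      change l⁻¹ * x ∈ f.ker
      rw [MonoidHom.mem_ker, map_mul, map_inv, hlx, inv_mul_cancel]
    have h2 := L.mul_mem hl h1
    rwa [mul_inv_cancel_left] at h2
  have hkey : (L.map f).comap f ⊓ H = L := by
    apply le_antisymm
    · rintro x ⟨hx1, hx2⟩
      exact hmem x hx2 hx1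
    · intro x hx
      exact ⟨⟨x, hx, rfl⟩, hHL.lt.le hx⟩
  have hch : IsChief (H.map f) (L.map f) := by
    refine ⟨hnH.map f hf, hnL.map f hf, lt_of_le_of_ne (Subgroup.map_mono hHL.lt.le) ?_, ?_⟩
    · intro he
      apply hHL.lt.ne
      apply le_antisymm hHL.lt.le
      intro x hx
      apply hmem x hx
      rw [he]
      exact ⟨x, hx, rfl⟩
    · intro Z hZ h1 h2
      have hW : (Z.comap f ⊓ H).Normal := by
        have := hZ.comap f
        infer_instance
      rcases hHL.min (Z.comap f ⊓ H) hW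
        (le_inf (Subgroup.map_le_iff_le_comap.1 h1) hHL.lt.le) inf_le_right with h3 | h3
      · left
        apply le_antisymm _ h1
        intro z hz
        obtain ⟨x, hx, rfl⟩ := h2 hz
        refine ⟨x, ?_, rfl⟩
        have : x ∈ Z.comap f ⊓ H := ⟨hz, hx⟩
        rw [h3] at this
        exact this
      · right
        apply le_antisymm h2
        rw [Subgroup.map_le_iff_le_comap]
        calc H = Z.comap f ⊓ H := h3.symm
          _ ≤ Z.comap f := inf_le_left
  obtain ⟨h1, C, hC, h2, h3⟩ := h _ _ hch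
  refine ⟨?_, C.comap f, hC.comap f, ?_, ?_⟩
  · rw [← Subgroup.relIndex_comap, ← Subgroup.inf_relIndex_right, hkey] at h1
    exact h1
  · rw [Subgroup.commutator_le]
    intro c hc x hx
    apply hmem
    · exact Subgroup.commutator_le_right (C.comap f) H (Subgroup.commutator_mem_commutator hc hx)
    · rw [map_commutatorElement]
      exact h2 (Subgroup.commutator_mem_commutator hc ⟨x, hx, rfl⟩)
  · rw [Subgroup.index_comap_of_surjective C hf]
    exact h3

/-- PROOF. Let `H/L` be a chief factor, `N = ker f`. `(H ⊓ N) ⊔ L` is `L` or `H`. In the first case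
use `chief_case`. In the second case let `H₁ = H ⊓ N`, `L₁ = H₁ ⊓ L`; then `H₁ ⊔ L = H` and `H₁/L₁`
is a chief factor (for `Z` normal between, `Z ⊔ L` is `L` or `H`, and `Z = (Z ⊔ L) ⊓ H₁` by the
modular law `Subgroup.inf_sup_assoc_of_le`/element computation) with `|H₁ : L₁| = |H : L|`
(`Subgroup.relIndex_sup_right`/second isomorphism theorem), `H₁ ⊓ ker g = ⊥ ≤ L₁`. Apply
`chief_case` for `g`, `H₁`, `L₁`; for its `C`: `⁅C, H⁆ = ⁅C, H₁ ⊔ L⁆ ≤ L₁ ⊔ L = L`. -/
theorem chief_sub {n : ℕ} {K A B : Type} [Group K] [Finite K] [Group A] [Finite A] [Group B]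
    [Finite B] (f : K →* A) (g : K →* B) (hf : Function.Surjective f)
    (hg : Function.Surjective g) (hA : ChiefBound n A) (hB : ChiefBound n B)
    (h : ∀ x, f x = 1 → g x = 1 → x = 1) : ChiefBound n K := by
  intro H L hHL
  have hnH : H.Normal := hHL.nH
  have hnL : L.Normal := hHL.nL
  have hn1 : (H ⊓ f.ker).Normal := inferInstance
  have hn2 : ((H ⊓ f.ker) ⊔ L).Normal := inferInstance
  rcases hHL.min ((H ⊓ f.ker) ⊔ L) hn2 le_sup_right (sup_le inf_le_left hHL.lt.le) with h0 | h0
  · exact chief_case f hf hA H L hHL (by rw [← h0]; exact le_sup_left)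
  · generalize hH₁ : H ⊓ f.ker = H₁ at *
    have hmk : ∀ x ∈ H₁, f x = 1 := by
      intro x hx
      rw [← hH₁] at hx
      exact MonoidHom.mem_ker.1 hx.2
    have hn3 : (H₁ ⊓ L).Normal := inferInstance
    have hch : IsChief H₁ (H₁ ⊓ L) := by
      refine ⟨hn1, hn3, lt_of_le_of_ne inf_le_left ?_, ?_⟩
      · intro he
        apply hHL.lt.ne
        rw [← h0]
        exact (sup_eq_right.2 (inf_eq_left.1 he)).symm
      · intro Z hZ h1 h2
        have hZL : (Z ⊔ L).Normal := inferInstance
        have hle : Z ⊔ L ≤ H := by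
          rw [← h0]
          exact sup_le_sup_right h2 L
        rcases hHL.min (Z ⊔ L) hZL le_sup_right hle with h3 | h3
        · left
          exact le_antisymm (le_inf h2 (by rw [← h3]; exact le_sup_left)) h1
        · right
          apply le_antisymm h2
          intro x hx
          have hxH : x ∈ Z ⊔ L := by
            rw [h3, ← h0]
            exact Subgroup.mem_sup_left hx
          obtain ⟨z, hz, l, hl, rfl⟩ := Subgroup.mem_sup_of_normal_right.1 hxH
          apply Z.mul_mem hz
          apply h1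
          refine ⟨?_, hl⟩
          have := H₁.mul_mem (H₁.inv_mem (h2 hz)) hx
          rwa [inv_mul_cancel_left] at this
    obtain ⟨h1, C, hC, h2, h3⟩ := chief_case g hg hB H₁ (H₁ ⊓ L) hch (by
      rintro x ⟨hx1, hx2⟩
      rw [h x (hmk x hx1) (MonoidHom.mem_ker.1 hx2)]
      exact Subgroup.one_mem _)
    refine ⟨?_, C, hC, ?_, h3⟩
    · rw [← h0, Subgroup.relIndex_sup_right, ← Subgroup.inf_relIndex_right, inf_comm]
      exact h1
    · rw [Subgroup.commutator_le]
      intro c hc x hx
      rw [← h0] at hx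
      obtain ⟨y, hy, l, hl, rfl⟩ := Subgroup.mem_sup_of_normal_right.1 hx
      have h4 : ⁅c, y⁆ ∈ L := (h2 (Subgroup.commutator_mem_commutator hc hy)).2
      have h5 : ⁅c, l⁆ ∈ L :=
        Subgroup.commutator_le_right C L (Subgroup.commutator_mem_commutator hc hl)
      have h6 : ⁅c, y * l⁆ = ⁅c, y⁆ * (y * ⁅c, l⁆ * y⁻¹) := by
        simp only [commutatorElement_def]
        group
      rw [h6]
      exact L.mul_mem h4 (hnL.conj_mem _ h5 y)

theorem chief_form {G : Type} [Group G] [Finite G] (K : Type) [Group K] [Finite K]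
    (hK : (form G).mem K) : ChiefBound (Nat.card G) K :=
  form_induction (G := G) (fun H _ _ => ChiefBound (Nat.card G) H)
    (fun _ _ _ _ _ _ f hf h => chief_surj f hf h)
    (fun _ _ _ _ _ _ _ _ _ f g hf hg hA hB h => chief_sub f g hf hg hA hB h)
    (chief_base G) K hK

end MP799fdf
end

section

/-! # Groups in `form G` with `n` generators have bounded order -/

set_option autoImplicit false

open scoped commutatorElement

namespace MP799fdf

/-- All laws of `G` in `n` variables hold in `K`. -/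
def Laws (G : Type) [Group G] (n : ℕ) (K : Type) [Group K] : Prop :=
  ∀ w : FreeGroup (Fin n), (∀ f : FreeGroup (Fin n) →* G, f w = 1) →
    ∀ f : FreeGroup (Fin n) →* K, f w = 1

/-- PROOF. `form_induction`: quotients: lift a homomorphism from the free group along the
surjection; subdirect products: compose with the two projections. -/
theorem laws_form {G : Type} [Group G] [Finite G] (n : ℕ) (K : Type) [Group K] [Finite K]
    (hK : (form G).mem K) : Laws G n K := by
  refine form_induction (G := G) (fun H _ _ => Laws G n H) ?_ ?_ ?_ K hK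
  · intro A B _ _ _ _ f hf hA w hw h
    choose v hv using fun i => hf (h (FreeGroup.of i))
    have hcomp : f.comp (FreeGroup.lift v) = h := by
      ext i
      simp [hv]
    have := hA w hw (FreeGroup.lift v)
    rw [← hcomp, MonoidHom.comp_apply, this, map_one]
  · intro K A B _ _ _ _ _ _ f g _ _ hA hB h w hw φ
    exact h _ (hA w hw (f.comp φ)) (hB w hw (g.comp φ))
  · intro w hw f
    exact hw f

/-- PROOF. Let `B` be the index of `Λ = ⨅ f : FreeGroup (Fin n) →* G, f.ker`; there are finitely many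
`f` (they are determined by the images of the generators), each kernel has finite index, so
`Λ.index ≠ 0`. If `φ : FreeGroup (Fin n) →* K` is surjective, then `Λ ≤ φ.ker` by `laws_form`, so
`|K| = φ.ker.index ≤ Λ.index`. -/
theorem gen_bound (G : Type) [Group G] [Finite G] (n : ℕ) : ∃ B : ℕ,
    ∀ (K : Type) [Group K] [Finite K], (form G).mem K →
      (∃ v : Fin n → K, Subgroup.closure (Set.range v) = ⊤) → Nat.card K ≤ B := by
  have hfin : Finite (FreeGroup (Fin n) →* G) := Finite.of_equiv _ FreeGroup.lift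
  have hind : (⨅ f : FreeGroup (Fin n) →* G, f.ker).index ≠ 0 := by
    apply Subgroup.index_iInf_ne_zero
    intro f
    rw [Subgroup.index_ker]
    exact Nat.card_pos.ne'
  refine ⟨(⨅ f : FreeGroup (Fin n) →* G, f.ker).index, fun K _ _ hK ⟨v, hv⟩ => ?_⟩
  have hle : (⨅ f : FreeGroup (Fin n) →* G, f.ker) ≤ (FreeGroup.lift v).ker := by
    intro w hw
    rw [MonoidHom.mem_ker]
    refine laws_form n K hK w (fun f => ?_) _
    exact MonoidHom.mem_ker.1 (Subgroup.mem_iInf.1 hw f)
  have hcard : Nat.card K = (FreeGroup.lift v).ker.index := by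
    rw [Subgroup.index_ker, FreeGroup.range_lift_eq_closure, hv]
    exact (Nat.card_congr Subgroup.topEquiv.toEquiv).symm
  rw [hcard]
  exact Nat.le_of_dvd (Nat.pos_of_ne_zero hind) (Subgroup.index_dvd_of_le hle)

end MP799fdf
end

section

/-! # Irreducible groups -/

set_option autoImplicit false

open scoped commutatorElement

namespace MP799fdf

/-- An irreducible nontrivial group has a unique minimal normal subgroup.

PROOF. Let `V` be a minimal normal subgroup (finite group). If `Z` is normal, `Z ≠ ⊥`, `V ≰ Z`, then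
`V ⊓ Z = ⊥`, and `K ⧸ V`, `K ⧸ Z ∈ form K` have order less than `|K|`, so they are in `low K`, and
`K ∈ low K` by `of_two`, a contradiction. -/
theorem irr_mono {K : Type} [Group K] [Finite K] [Nontrivial K] (h : IsIrr K) :
    ∃ V : Subgroup K, IsMono V := by
  obtain ⟨V, hV⟩ := exists_minimal_of_wellFoundedLT
    (fun Z : Subgroup K => Z.Normal ∧ Z ≠ ⊥) ⟨⊤, inferInstance, top_ne_bot⟩
  have hVn : V.Normal := hV.prop.1
  refine ⟨V, hVn, hV.prop.2, ?_⟩
  intro Z hZ hZ0
  by_contra hVZ
  have hinf : V ⊓ Z = ⊥ := by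
    by_contra hne
    have h1 : V ≤ V ⊓ Z := hV.le_of_le ⟨inferInstance, hne⟩ inf_le_left
    exact hVZ (h1.trans inf_le_right)
  have hsmall : ∀ (N : Subgroup K) [N.Normal], N ≠ ⊥ → (low K).mem (K ⧸ N) := by
    intro N hN hN0 F hF
    refine hF _ ⟨(form K).quot K N (mem_form K), ?_⟩
    have h1 := Subgroup.card_eq_card_quotient_mul_card_subgroup N
    have h2 : 1 < Nat.card N := by
      rw [Subgroup.one_lt_card_iff_ne_bot]
      exact hN0
    have h3 : 0 < Nat.card (K ⧸ N) := Nat.card_pos
    rw [h1]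
    exact lt_mul_of_one_lt_right h3 h2
  refine h ((low K).of_two (QuotientGroup.mk' V) (QuotientGroup.mk' Z)
    (QuotientGroup.mk'_surjective V) (QuotientGroup.mk'_surjective Z) (hsmall V hV.prop.2)
    (hsmall Z hZ0) ?_)
  intro x hx1 hx2
  have h1 : x ∈ V := by
    rw [← QuotientGroup.ker_mk' V]
    exact hx1
  have h2 : x ∈ Z := by
    rw [← QuotientGroup.ker_mk' Z]
    exact hx2
  have h3 : x ∈ V ⊓ Z := ⟨h1, h2⟩
  rw [hinf] at h3
  exact Subgroup.mem_bot.1 h3

/-- PROOF. `V` is a minimal normal subgroup. -/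
theorem mono_chief {K : Type} [Group K] {V : Subgroup K} (h : IsMono V) : IsChief V ⊥ := by
  refine ⟨h.nV, inferInstance, bot_lt_iff_ne_bot.2 h.ne, ?_⟩
  intro Z hZ _ hZV
  by_cases hZ0 : Z = ⊥
  · exact Or.inl hZ0
  · exact Or.inr (le_antisymm hZV (h.le Z hZ hZ0))

/-- The case that `V` is not abelian or not in the Frattini subgroup.

PROOF. Let `C` be the subgroup for the chief factor `V/1`. If `V` is not abelian: if `C ≠ ⊥` then
`V ≤ C` centralises `V`, a contradiction; so `C = ⊥`, `|K| = C.index ≤ n ≤ n ^ 2`. If `V` is abelian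
and `V ≰ M` for a coatom `M`: `V ⊔ M = ⊤`; `C ⊓ M` is normalised by `M` and centralised by `V`, so
normal; it does not contain `V`, so `C ⊓ M = ⊥`, `|M| ≤ C.index ≤ n`,
`|K| ≤ |V| |M| ≤ n ^ 2`. -/
theorem bound_nonfrattini {n : ℕ} {K : Type} [Group K] [Finite K] (hn : ChiefBound n K)
    (V : Subgroup K) (hV : IsMono V)
    (h : ¬ (∀ x ∈ V, ∀ y ∈ V, x * y = y * x) ∨ ¬ V ≤ frattini K) : Nat.card K ≤ n ^ 2 := by
  obtain ⟨hrel, C, hCn, hCV, hCi⟩ := hn V ⊥ (mono_chief hV)
  rw [Subgroup.relIndex_bot_left] at hrel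
  have hcomm : ∀ c ∈ C, ∀ v ∈ V, c * v = v * c := by
    intro c hc v hv
    have h1 : ⁅c, v⁆ ∈ (⊥ : Subgroup K) := hCV (Subgroup.commutator_mem_commutator hc hv)
    exact commutatorElement_eq_one_iff_mul_comm.1 (Subgroup.mem_bot.1 h1)
  have hVn := hV.nV
  have hcard : 0 < Nat.card K := Nat.card_pos
  by_cases hab : ∀ x ∈ V, ∀ y ∈ V, x * y = y * x
  · have hfr : ¬ V ≤ frattini K := by
      rcases h with h | h
      · exact absurd hab h
      · exact h
    obtain ⟨M, hM, hVM⟩ : ∃ M : Subgroup K, IsCoatom M ∧ ¬ V ≤ M := by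
      by_contra hno
      push Not at hno
      apply hfr
      unfold frattini Order.radical
      exact le_iInf₂ fun M hM => hno M hM
    have hsup : V ⊔ M = ⊤ := by
      apply hM.2
      refine lt_of_le_of_ne le_sup_right ?_
      intro heq
      exact hVM (heq ▸ le_sup_left)
    have hdec : ∀ g : K, ∃ v ∈ V, ∃ m ∈ M, v * m = g := by
      intro g
      have hg : g ∈ ((V ⊔ M : Subgroup K) : Set K) := by rw [hsup]; exact Subgroup.mem_top g
      rw [Subgroup.normal_mul] at hg
      obtain ⟨v, hv, m, hm, hvm⟩ := Set.mem_mul.1 hg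
      exact ⟨v, hv, m, hm, hvm⟩
    have hCM : (C ⊓ M).Normal := by
      refine ⟨fun x hx g => ?_⟩
      obtain ⟨v, hv, m, hm, rfl⟩ := hdec g
      have h1 : m * x * m⁻¹ ∈ C := hCn.conj_mem x hx.1 m
      have h2 : m * x * m⁻¹ ∈ M := M.mul_mem (M.mul_mem hm hx.2) (M.inv_mem hm)
      have h3 : v * m * x * (v * m)⁻¹ = m * x * m⁻¹ := by
        have h4 := hcomm _ h1 v hv
        calc v * m * x * (v * m)⁻¹ = (v * (m * x * m⁻¹)) * v⁻¹ := by group
          _ = (m * x * m⁻¹ * v) * v⁻¹ := by rw [h4]
          _ = m * x * m⁻¹ := by group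
      rw [h3]
      exact ⟨h1, h2⟩
    have hCM0 : C ⊓ M = ⊥ := by
      by_contra hne
      exact hVM ((hV.le _ hCM hne).trans inf_le_right)
    have hMc : Nat.card M ≤ n := by
      have h1 : C.relIndex M = Nat.card M := by
        rw [← Subgroup.inf_relIndex_right, hCM0, Subgroup.relIndex_bot_left]
      have h2 : C.relIndex M ∣ C.index := Subgroup.relIndex_dvd_index_of_normal C M
      rw [h1] at h2
      exact (Nat.le_of_dvd (Nat.pos_of_ne_zero Subgroup.index_ne_zero_of_finite) h2).trans hCi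
    have hsurj : Function.Surjective (fun p : V × M => (p.1 : K) * (p.2 : K)) := by
      intro g
      obtain ⟨v, hv, m, hm, hg⟩ := hdec g
      exact ⟨(⟨v, hv⟩, ⟨m, hm⟩), hg⟩
    have h5 := Nat.card_le_card_of_surjective _ hsurj
    rw [Nat.card_prod] at h5
    calc Nat.card K ≤ Nat.card V * Nat.card M := h5
      _ ≤ n * n := Nat.mul_le_mul hrel hMc
      _ = n ^ 2 := (sq n).symm
  · have hC0 : C = ⊥ := by
      by_contra hne
      apply hab
      have hVC := hV.le C hCn hne
      intro x hx y hy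
      exact hcomm x (hVC hx) y hy
    rw [hC0, Subgroup.index_bot] at hCi
    exact hCi.trans (Nat.le_self_pow (by norm_num) n)

end MP799fdf
end

section

/-! # Irreducible groups -/

set_option autoImplicit false

open scoped commutatorElement

namespace MP799fdf

private theorem irrb_ext {F₁ F₂ : Formation}
    (h : ∀ (K : Type) [Group K] [Finite K], F₁.mem K ↔ F₂.mem K) : F₁ = F₂ := by
  have hm : @Formation.mem F₁ = @Formation.mem F₂ := by
    funext K i1 i2
    exact propext (h K)
  cases F₁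
  cases F₂
  cases hm
  rfl

/-- The multiplication tables of the members of order at most `B`. -/
private def irrbTab (B : ℕ) (F : Formation) : Set (Σ m : Fin (B + 1), Fin m.1 → Fin m.1 → Fin m.1) :=
  {x | ∃ inst : Group (Fin x.1.1), (∀ a b, inst.mul a b = x.2 a b) ∧ @Formation.mem F (Fin x.1.1) inst inferInstance}

private theorem irrb_step {G : Type} [Group G] [Finite G] (B : ℕ)
    (h : ∀ (K : Type) [Group K] [Finite K], (form G).mem K → IsIrr K → Nat.card K ≤ B)
    (F₁ F₂ : Formation) (h1 : F₁.IsSub (form G)) (hT : irrbTab B F₁ = irrbTab B F₂) (n : ℕ) :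
    ∀ (K : Type) [Group K] [Finite K], Nat.card K = n → F₁.mem K → F₂.mem K := by
  induction n using Nat.strong_induction_on with
  | _ n ih =>
    intro K _ _ hn hK
    by_cases hirr : IsIrr K
    · have hB := h K (h1 K hK) hirr
      let e := Finite.equivFin K
      let i1 : Group (Fin (Nat.card K)) := e.symm.group
      have e1 : @MulEquiv K (Fin (Nat.card K)) _ i1.toMul :=
        @MulEquiv.mk K (Fin (Nat.card K)) _ i1.toMul e (fun x y => by
          show e (x * y) = e (e.symm (e x) * e.symm (e y))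
          rw [Equiv.symm_apply_apply, Equiv.symm_apply_apply])
      have hm1 : @Formation.mem F₁ (Fin (Nat.card K)) i1 inferInstance :=
        @Formation.iso F₁ K (Fin (Nat.card K)) _ _ i1 inferInstance e1 hK
      have hmem : (⟨⟨Nat.card K, by omega⟩, fun a b => i1.mul a b⟩ :
          Σ m : Fin (B + 1), Fin m.1 → Fin m.1 → Fin m.1) ∈ irrbTab B F₁ := ⟨i1, fun _ _ => rfl, hm1⟩
      rw [hT] at hmem
      obtain ⟨i2, h2, h3⟩ := hmem
      have e2 : @MulEquiv (Fin (Nat.card K)) K i2.toMul _ :=
        @MulEquiv.mk (Fin (Nat.card K)) K i2.toMul _ e.symm (fun x y => by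
          have h4 := h2 x y
          show e.symm (i2.mul x y) = e.symm x * e.symm y
          rw [h4]
          show e.symm (e (e.symm x * e.symm y)) = _
          rw [Equiv.symm_apply_apply])
      exact @Formation.iso F₂ (Fin (Nat.card K)) K i2 inferInstance _ _ e2 h3
    · have hlow : (low K).mem K := not_not.mp hirr
      refine hlow F₂ fun X _ _ hX => ?_
      exact ih (Nat.card X) (by rw [← hn]; exact hX.2) X rfl (form_le F₁ hK X hX.1)

/-- If the irreducible groups in `form G` have bounded order, then `form G` has only finitely many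
subformations.

PROOF. Map a subformation `F` to the set of all pairs `(m, t)`, `m ≤ B`, `t` a multiplication table
on `Fin m` that is the table of a group in `F`. This is injective: let `F₁, F₂ ≤ form G` have the
same image. By strong induction on `|K|`: `K ∈ F₁ → K ∈ F₂`. If `K` is irreducible then `|K| ≤ B`
and `K` is isomorphic to a group on `Fin m`, whose table is in the image of `F₁`, so of `F₂` (two
groups with the same table are isomorphic). If not, `K ∈ low K`, and all members `H` of `form K`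
with `|H| < |K|` are in `F₁` (`form_le`), so in `F₂` by induction; so `K ∈ F₂`. -/
theorem finite_of_bound {G : Type} [Group G] [Finite G] (B : ℕ)
    (h : ∀ (K : Type) [Group K] [Finite K], (form G).mem K → IsIrr K → Nat.card K ≤ B) :
    {F : Formation | F.IsSub (form G)}.Finite := by
  rw [← Set.finite_coe_iff]
  refine Finite.of_injective (fun F : {F : Formation | F.IsSub (form G)} => irrbTab B F.1) ?_
  intro F₁ F₂ hT
  refine Subtype.ext (irrb_ext fun K _ _ => ⟨fun hK => ?_, fun hK => ?_⟩)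
  · exact irrb_step B h F₁.1 F₂.1 F₁.2 hT _ K rfl hK
  · exact irrb_step B h F₂.1 F₁.1 F₂.2 hT.symm _ K rfl hK

end MP799fdf
end

section

/-! # The class of nilpotent subgroups of groups in `form G` -/

set_option autoImplicit false

open scoped commutatorElement

namespace MP799fdf

/-- All `p`-subgroups have class at most `c`. -/
def PClass (c : ℕ) (K : Type) [Group K] : Prop :=
  ∀ p : ℕ, p.Prime → ∀ P : Subgroup K, IsPGroup p P → P.lowerCentralSeries c = ⊥

/-- PROOF. `p`-groups are nilpotent (`IsPGroup.isNilpotent`), so every `p`-subgroup `P` has some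
`n` with `P.lowerCentralSeries n = ⊥` (`Subgroup.isNilpotent_iff_lowerCentralSeries`); there are
only finitely many subgroups; `Subgroup.lowerCentralSeries_antitone`. -/
theorem pclass_base (G : Type) [Group G] [Finite G] : ∃ c, PClass c G := by
  classical
  have h1 : ∀ P : Subgroup G, ∃ n, ∀ p : ℕ, p.Prime → IsPGroup p P → P.lowerCentralSeries n = ⊥ := by
    intro P
    by_cases hP : ∃ p : ℕ, p.Prime ∧ IsPGroup p P
    · obtain ⟨p, hp, hPp⟩ := hP
      have : Fact p.Prime := ⟨hp⟩
      have hn : Group.IsNilpotent P := hPp.isNilpotent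
      obtain ⟨n, hn'⟩ := (Subgroup.isNilpotent_iff_lowerCentralSeries P).1 hn
      exact ⟨n, fun _ _ _ => hn'⟩
    · exact ⟨0, fun p hp hPp => absurd ⟨p, hp, hPp⟩ hP⟩
  choose n hn using h1
  obtain ⟨c, hc⟩ := (Set.finite_range n).bddAbove
  refine ⟨c, fun p hp P hPp => ?_⟩
  have h2 : P.lowerCentralSeries c ≤ P.lowerCentralSeries (n P) :=
    Subgroup.lowerCentralSeries_antitone P (hc ⟨P, rfl⟩)
  rw [hn P p hp hPp] at h2
  exact le_bot_iff.1 h2

/-- PROOF. Let `P` be a `p`-subgroup of `B`, `T = P.comap f`, `φ : T → P` the restriction of `f`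
(surjective), `S` a Sylow `p`-subgroup of `T`. `S.map φ` is a Sylow `p`-subgroup of the `p`-group `P`
(`Sylow.mapSurjective`), so it is `⊤`. Hence `P = Q.map f` for the `p`-subgroup
`Q = S.map T.subtype` of `A`; `Subgroup.map_lowerCentralSeries`. -/
theorem pclass_surj {c : ℕ} {A B : Type} [Group A] [Finite A] [Group B] [Finite B] (f : A →* B)
    (hf : Function.Surjective f) (h : PClass c A) : PClass c B := by
  intro p hp P hP
  have hpf : Fact p.Prime := ⟨hp⟩
  let φ : P.comap f →* P := (f.comp (P.comap f).subtype).codRestrict P (fun x => x.2)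
  have hφ : Function.Surjective φ := by
    rintro ⟨y, hy⟩
    obtain ⟨x, hx⟩ := hf y
    exact ⟨⟨x, by simpa [Subgroup.mem_comap, hx] using hy⟩, Subtype.ext hx⟩
  obtain ⟨S⟩ : Nonempty (Sylow p (P.comap f)) := inferInstance
  have hT : ((S : Subgroup (P.comap f)).map φ) = ⊤ := by
    have h1 : IsPGroup p (⊤ : Subgroup P) := by
      exact hP.of_equiv Subgroup.topEquiv.symm
    have h2 := (Sylow.mapSurjective hφ S).3 h1 le_top
    exact h2.symm
  have hQ : ((S : Subgroup (P.comap f)).map (P.comap f).subtype).map f = P := by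
    apply le_antisymm
    · rintro _ ⟨_, ⟨x, _, rfl⟩, rfl⟩
      exact x.2
    · intro y hy
      have : (⟨y, hy⟩ : P) ∈ ((S : Subgroup (P.comap f)).map φ) := by rw [hT]; trivial
      obtain ⟨x, hx, hxy⟩ := this
      refine ⟨x.1, ⟨x, hx, rfl⟩, ?_⟩
      have := congrArg Subtype.val hxy
      exact this
  have hQp : IsPGroup p ((S : Subgroup (P.comap f)).map (P.comap f).subtype) :=
    S.isPGroup'.map _
  have h3 := h p hp _ hQp
  rw [← hQ, ← Subgroup.map_lowerCentralSeries, h3, Subgroup.map_bot]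

/-- PROOF. `(P.lowerCentralSeries c).map f = (P.map f).lowerCentralSeries c = ⊥` as `P.map f` is a
`p`-group (`IsPGroup.map`), and similarly for `g`. -/
theorem pclass_sub {c : ℕ} {K A B : Type} [Group K] [Finite K] [Group A] [Finite A] [Group B]
    [Finite B] (f : K →* A) (g : K →* B) (hA : PClass c A) (hB : PClass c B)
    (h : ∀ x, f x = 1 → g x = 1 → x = 1) : PClass c K := by
  intro p hp P hP
  have h1 := hA p hp (P.map f) (hP.map f)
  have h2 := hB p hp (P.map g) (hP.map g)
  rw [← Subgroup.map_lowerCentralSeries] at h1 h2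
  rw [eq_bot_iff]
  intro x hx
  refine h x ?_ ?_
  · have : f x ∈ (P.lowerCentralSeries c).map f := ⟨x, hx, rfl⟩
    rw [h1] at this
    exact this
  · have : g x ∈ (P.lowerCentralSeries c).map g := ⟨x, hx, rfl⟩
    rw [h2] at this
    exact this

/-- PROOF. `F` is nilpotent and finite, hence isomorphic to the product of its Sylow subgroups
(`Group.isNilpotent_of_finite_tfae`), each of class at most `c`;
`lowerCentralSeries_pi_of_finite` (or its present form for `(⊤ : Subgroup _)`), and
`Subgroup.top_subtype_lowerCentralSeries`. Alternative proof without the product: let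
`X = F.lowerCentralSeries c` and let `S_p` be the (normal) Sylow `p`-subgroup of `F`; by
`Subgroup.map_lowerCentralSeries` for `F → F/(product of the other Sylow subgroups) ≅ S_p`. -/
theorem nilp_class {c : ℕ} {K : Type} [Group K] [Finite K] (h : PClass c K) (F : Subgroup K)
    (hF : Group.IsNilpotent F) : gam F (c + 1) = ⊥ := by
  classical
  have hE : Nonempty ((∀ p : (Nat.card F).primeFactors, ∀ P : Sylow p F,
      (↑P : Subgroup F)) ≃* F) :=
    (Group.isNilpotent_of_finite_tfae (G := F)).out 0 4 rfl rfl |>.mp hF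
  obtain ⟨e⟩ := hE
  have h1 : ∀ (p : (Nat.card F).primeFactors) (P : Sylow p F),
      (⊤ : Subgroup (↑P : Subgroup F)).lowerCentralSeries c = ⊥ := by
    intro p P
    have hp : (p : ℕ).Prime := Nat.prime_of_mem_primeFactors p.2
    have h2 : ((P : Subgroup F).map F.subtype).lowerCentralSeries c = ⊥ :=
      h p hp _ (P.isPGroup'.map _)
    rw [← Subgroup.map_lowerCentralSeries, ← Subgroup.top_subtype_lowerCentralSeries,
      Subgroup.map_eq_bot_iff_of_injective _ F.subtype_injective,
      Subgroup.map_eq_bot_iff_of_injective _ (Subgroup.subtype_injective _)] at h2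
    exact h2
  have h3 : ∀ p : (Nat.card F).primeFactors,
      (⊤ : Subgroup (∀ P : Sylow p F, (↑P : Subgroup F))).lowerCentralSeries c = ⊥ := by
    intro p
    refine eq_bot_iff.2 ((Subgroup.top_lowerCentralSeries_pi_le c).trans ?_)
    rw [le_bot_iff, Subgroup.pi_eq_bot_iff]
    exact fun P => h1 p P
  have h4 : (⊤ : Subgroup (∀ p : (Nat.card F).primeFactors, ∀ P : Sylow p F,
      (↑P : Subgroup F))).lowerCentralSeries c = ⊥ := by
    refine eq_bot_iff.2 ((Subgroup.top_lowerCentralSeries_pi_le c).trans ?_)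
    rw [le_bot_iff, Subgroup.pi_eq_bot_iff]
    exact fun p => h3 p
  have h5 : (⊤ : Subgroup F).lowerCentralSeries c = ⊥ := by
    have h6 := Subgroup.map_lowerCentralSeries (S := (⊤ : Subgroup (∀ p : (Nat.card F).primeFactors,
      ∀ P : Sylow p F, (↑P : Subgroup F)))) e.toMonoidHom c
    rw [h4, Subgroup.map_bot, Subgroup.map_top_of_surjective _ e.surjective] at h6
    exact h6.symm
  change F.lowerCentralSeries c = ⊥
  rw [← Subgroup.top_subtype_lowerCentralSeries, h5, Subgroup.map_bot]

theorem class_form (G : Type) [Group G] [Finite G] : ∃ c, ∀ (K : Type) [Group K] [Finite K],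
    (form G).mem K → ∀ F : Subgroup K, Group.IsNilpotent F → gam F (c + 1) = ⊥ := by
  obtain ⟨c, hc⟩ := pclass_base G
  refine ⟨c, fun K _ _ hK F hF => nilp_class ?_ F hF⟩
  exact form_induction (G := G) (fun H _ _ => PClass c H)
    (fun _ _ _ _ _ _ f hf h => pclass_surj f hf h)
    (fun _ _ _ _ _ _ _ _ _ f g _ _ hA hB h => pclass_sub f g hA hB h) hc K hK

end MP799fdf
end

section

/-! # Nonabelian minimal normal subgroups; generators -/

set_option autoImplicit false

open scoped commutatorElement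

namespace MP799fdf

open Finset

/-- No nonabelian minimal normal subgroup of `K / frattini K` centralises `V`.

PROOF. `C` normal, `⁅C, V⁆ = ⊥`, `W` a nonabelian minimal normal subgroup of the quotient with
`W ≤ C.map mk`. `⁅W, W⁆` is normal, not trivial, so equal to `W`; `R = res (W.comap mk)` is perfect,
normal, and `R.map mk = res W = W ≠ ⊥`, so `R ≠ ⊥`, `V ≤ R`. `R ≤ W.comap mk ≤ C ⊔ frattini K`, so
`R ≤ C` (`perfect_le`, `frattini_nilpotent`). `CF K` for `R` and `Y = ⊥`: every `x ∈ V` is in `R`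
and commutes with `R ≤ C`, so `x = 1`; a contradiction to `V ≠ ⊥`. -/
theorem no_nonabelian {K : Type} [Group K] [Finite K] (hCF : CF K) (V : Subgroup K)
    (hV : IsMono V) (C : Subgroup K) (hC : C.Normal) (hCV : ⁅C, V⁆ ≤ ⊥)
    (W : Subgroup (K ⧸ frattini K)) (hW : IsChief W ⊥)
    (hWC : W ≤ C.map (QuotientGroup.mk' (frattini K))) : ∀ x ∈ W, ∀ y ∈ W, x * y = y * x := by
  by_contra hcon
  have hWn := hW.nH
  have h1 : ⁅W, W⁆ ≠ ⊥ := by
    intro h
    apply hcon
    intro x hx y hy
    have h2 : ⁅x, y⁆ ∈ ⁅W, W⁆ := Subgroup.commutator_mem_commutator hx hy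
    rw [h, Subgroup.mem_bot, commutatorElement_eq_one_iff_mul_comm] at h2
    exact h2
  have h2 : ⁅W, W⁆ = W := by
    rcases hW.min ⁅W, W⁆ (Subgroup.commutator_normal _ _) bot_le (Subgroup.commutator_le_self W)
      with h | h
    · exact absurd h h1
    · exact h
  have hRn : (res (W.comap (QuotientGroup.mk' (frattini K)))).Normal :=
    res_normal _ (hWn.comap _)
  have hperf := res_perfect (W.comap (QuotientGroup.mk' (frattini K)))
  have hmap : (res (W.comap (QuotientGroup.mk' (frattini K)))).map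
      (QuotientGroup.mk' (frattini K)) = W := by
    rw [res_map, Subgroup.map_comap_eq_self_of_surjective (QuotientGroup.mk'_surjective _),
      res_of_perfect W h2]
  have hRne : res (W.comap (QuotientGroup.mk' (frattini K))) ≠ ⊥ := by
    intro h
    rw [h, Subgroup.map_bot] at hmap
    exact hW.lt.ne hmap
  have hVR : V ≤ res (W.comap (QuotientGroup.mk' (frattini K))) := hV.le _ hRn hRne
  have hsolv : Group.IsSolvable (frattini K) := by
    have := frattini_nilpotent (G := K)
    infer_instance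
  have hRC : res (W.comap (QuotientGroup.mk' (frattini K))) ≤ C := by
    refine perfect_le _ C (frattini K) hC hsolv hperf ?_
    refine (res_le _).trans ?_
    refine (Subgroup.comap_mono hWC).trans ?_
    rw [Subgroup.comap_map_eq, QuotientGroup.ker_mk']
  apply hV.ne
  rw [eq_bot_iff]
  intro x hx
  refine hCF _ ⊥ hRn inferInstance bot_le hperf x (hVR hx) ?_
  intro r hr
  have h3 : ⁅r, x⁆ ∈ (⊥ : Subgroup K) :=
    hCV (Subgroup.commutator_mem_commutator (hRC hr) hx)
  rw [Subgroup.mem_bot] at h3 ⊢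
  rw [← commutatorElement_inv, h3, inv_one]

/-- PROOF. Choose a surjection `Fin N → K ⧸ frattini K` and lift it to `v : Fin N → K`; the closure
of its range together with `frattini K` is everything; `frattini_nongenerating`. -/
theorem gens_of_quot {K : Type} [Group K] [Finite K] (N : ℕ)
    (h : Nat.card (K ⧸ frattini K) ≤ N) :
    ∃ v : Fin N → K, Subgroup.closure (Set.range v) = ⊤ := by
  classical
  have hne : Nonempty (K ⧸ frattini K) := inferInstance
  obtain ⟨s, hs⟩ : ∃ s : Fin N → K ⧸ frattini K, Function.Surjective s := by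
    let e : Fin (Nat.card (K ⧸ frattini K)) ≃ K ⧸ frattini K := (Finite.equivFin _).symm
    refine ⟨fun i => if hi : (i : ℕ) < Nat.card (K ⧸ frattini K) then e ⟨i, hi⟩
      else Classical.choice hne, ?_⟩
    intro y
    refine ⟨⟨(e.symm y : ℕ), lt_of_lt_of_le (e.symm y).2 h⟩, ?_⟩
    have h1 : ((e.symm y : Fin _) : ℕ) < Nat.card (K ⧸ frattini K) := (e.symm y).2
    show (if hi : ((e.symm y : Fin _) : ℕ) < Nat.card (K ⧸ frattini K) then e ⟨_, hi⟩
      else Classical.choice hne) = y
    rw [dif_pos h1]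
    exact e.apply_symm_apply y
  refine ⟨fun i => (s i).out, ?_⟩
  apply frattini_nongenerating
  rw [eq_top_iff]
  intro x _
  obtain ⟨i, hi⟩ := hs (x : K ⧸ frattini K)
  have h1 : (s i).out⁻¹ * x ∈ frattini K := by
    rw [← QuotientGroup.eq, ← hi]
    exact Quotient.out_eq' _
  have h2 : x = (s i).out * ((s i).out⁻¹ * x) := by group
  rw [h2]
  exact Subgroup.mul_mem_sup (Subgroup.subset_closure ⟨i, rfl⟩) h1

end MP799fdf
end

section

/-! # The two lemmas on supplements of nilpotent normal subgroups -/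

set_option autoImplicit false

open scoped commutatorElement

namespace MP799fdf

open Finset

/-- the group generated by the constant functions in `L` and by the functions `bb {i} n` -/
private def D0 {K : Type} [Group K] {s : ℕ} (L : Subgroup K) (N : Fin s → Subgroup K) :
    Subgroup (Finset (Fin s) → K) :=
  Subgroup.closure ({φ | ∃ l ∈ L, φ = bb ∅ l} ∪ {φ | ∃ i, ∃ n ∈ N i, φ = bb {i} n})

private lemma D0_le {K : Type} [Group K] {s : ℕ} (L : Subgroup K) (N : Fin s → Subgroup K)
    (F : Subgroup K) (hN : ∀ i, N i ≤ F) :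
    D0 L N ≤ DD univ (fun T : Finset (Fin s) => gam F T.card) := by
  rw [D0, Subgroup.closure_le]
  rintro φ (⟨l, _, rfl⟩ | ⟨i, n, hn, rfl⟩)
  · exact Subgroup.subset_closure ⟨∅, Finset.subset_univ _, l, Subgroup.mem_top l, rfl⟩
  · refine Subgroup.subset_closure ⟨{i}, Finset.subset_univ _, n, ?_, rfl⟩
    have : n ∈ gam F ({i} : Finset (Fin s)).card := by
      rw [Finset.card_singleton]
      exact hN i hn
    exact this

private lemma D0_eval {K : Type} [Group K] {s : ℕ} (L : Subgroup K) (N : Fin s → Subgroup K)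
    (S : Finset (Fin s)) :
    (D0 L N).map (Pi.evalMonoidHom (fun _ : Finset (Fin s) => K) S) = L ⊔ ⨆ i ∈ S, N i := by
  apply le_antisymm
  · rw [Subgroup.map_le_iff_le_comap, D0, Subgroup.closure_le]
    rintro φ (⟨l, hl, rfl⟩ | ⟨i, n, hn, rfl⟩)
    · rw [SetLike.mem_coe, Subgroup.mem_comap]
      have : (Pi.evalMonoidHom (fun _ : Finset (Fin s) => K) S) (bb ∅ l) = l := by
        simp [bb]
      rw [this]
      exact (le_sup_left : L ≤ _) hl
    · rw [SetLike.mem_coe, Subgroup.mem_comap]
      by_cases hi : i ∈ S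
      · have : (Pi.evalMonoidHom (fun _ : Finset (Fin s) => K) S) (bb {i} n) = n := by
          simp [bb, hi]
        rw [this]
        have h1 : N i ≤ ⨆ i ∈ S, N i := le_iSup₂_of_le i hi le_rfl
        exact (h1.trans le_sup_right) hn
      · have : (Pi.evalMonoidHom (fun _ : Finset (Fin s) => K) S) (bb {i} n) = 1 := by
          simp [bb, hi]
        rw [this]
        exact Subgroup.one_mem _
  · refine sup_le ?_ (iSup₂_le fun i hi => ?_)
    · intro l hl
      refine ⟨bb ∅ l, Subgroup.subset_closure (Or.inl ⟨l, hl, rfl⟩), ?_⟩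
      simp [bb]
    · intro n hn
      refine ⟨bb {i} n, Subgroup.subset_closure (Or.inr ⟨i, n, hn, rfl⟩), ?_⟩
      simp [bb, hi]

/-- evaluation at `S` as a surjection onto `K_S` -/
private lemma D0_surj {K : Type} [Group K] {s : ℕ} (L : Subgroup K) (N : Fin s → Subgroup K)
    (S : Finset (Fin s)) : ∃ f : D0 L N →* ↥(L ⊔ ⨆ i ∈ S, N i), Function.Surjective f ∧
      ∀ φ : D0 L N, ((f φ : ↥(L ⊔ ⨆ i ∈ S, N i)) : K) = (φ : Finset (Fin s) → K) S := by
  have hmem : ∀ φ : D0 L N, ((Pi.evalMonoidHom (fun _ : Finset (Fin s) => K) S).comp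
      (D0 L N).subtype) φ ∈ L ⊔ ⨆ i ∈ S, N i := by
    intro φ
    rw [← D0_eval]
    exact Subgroup.mem_map_of_mem _ φ.2
  refine ⟨MonoidHom.codRestrict _ _ hmem, ?_, fun φ => rfl⟩
  rintro ⟨x, hx⟩
  rw [← D0_eval] at hx
  obtain ⟨φ, hφ, rfl⟩ := hx
  exact ⟨⟨φ, hφ⟩, rfl⟩

/-- `K_S = L ⊔ ⨆_(i ∈ S) N i` for `S ⊆ Fin s`. If all `K_S`, `S ≠ S₀`, are in the formation `E`, then
so is `K_(S₀)`.

PROOF. Let `D₀ ≤ Finset (Fin s) → K` be the subgroup generated by all `bb ∅ l`, `l ∈ L`, and all
`bb {i} n`, `n ∈ N i`. For every `S` the evaluation `φ ↦ φ S` maps `D₀` onto `K_S` (image of a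
closure = closure of the images; `bb {i} n` is `n` at `S` if `i ∈ S` and `1` otherwise). By
`gam_family` the family `T ↦ gam F T.card` satisfies the hypothesis of `cube`, and `D₀ ≤ DD univ _`.
If `φ ∈ D₀` is trivial at all `S ≠ S₀`, then `φ S₀ ∈ gam F s = ⊥`, so `φ = 1`. Hence `D₀ ∈ E` by
`Formation.of_family` (index type `{S // S ≠ S₀}`, nonempty since `0 < s`, so there are at least two
subsets of `Fin s`), and `K_(S₀)` is an image of `D₀`. -/
theorem L12 (E : Formation) {K : Type} [Group K] [Finite K] {s : ℕ} (hs : 0 < s) (L : Subgroup K)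
    (N : Fin s → Subgroup K) (F : Subgroup K) (hF : F.Normal) (hN : ∀ i, N i ≤ F)
    (hnil : gam F s = ⊥) (S₀ : Finset (Fin s))
    (hmem : ∀ S : Finset (Fin s), S ≠ S₀ → E.mem ↥(L ⊔ ⨆ i ∈ S, N i)) :
    E.mem ↥(L ⊔ ⨆ i ∈ S₀, N i) := by
  classical
  have hfin : Finite (D0 L N) := inferInstance
  choose f hf1 hf2 using fun S => D0_surj L N S
  have hne : Nonempty {S : Finset (Fin s) // S ≠ S₀} := by
    by_cases h : S₀ = ∅
    · refine ⟨⟨univ, ?_⟩⟩
      rw [h]
      have : (univ : Finset (Fin s)).Nonempty := ⟨⟨0, hs⟩, Finset.mem_univ _⟩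
      exact this.ne_empty
    · exact ⟨⟨∅, fun e => h e.symm⟩⟩
  have h1 : E.mem (D0 L N) := by
    refine Formation.of_family E (J := {S : Finset (Fin s) // S ≠ S₀})
      (fun S => ↥(L ⊔ ⨆ i ∈ S.1, N i)) (fun S => f S.1) (fun S => hf1 S.1)
      (fun S => hmem S.1 S.2) ?_
    intro φ hφ
    have hvan : ∀ S : Finset (Fin s), S ≠ S₀ → (φ : Finset (Fin s) → K) S = 1 := by
      intro S hS
      rw [← hf2 S φ, hφ ⟨S, hS⟩]
      rfl
    have hval : (φ : Finset (Fin s) → K) S₀ = 1 := by
      have := cube univ (fun T : Finset (Fin s) => gam F T.card) (gam_family F hF) φ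
        (D0_le L N F hN φ.2) S₀ (Finset.subset_univ _) (fun S _ hS => hvan S hS)
      rw [Finset.card_univ, Fintype.card_fin, hnil] at this
      exact Subgroup.mem_bot.1 this
    apply Subtype.ext
    funext S
    by_cases hS : S = S₀
    · rw [hS, hval]
      rfl
    · rw [hvan S hS]
      rfl
  exact E.of_surj (f S₀) (hf1 S₀) h1

/-- (Bryant, Bryce, Hartley) A supplement `L` of a nilpotent normal subgroup `F` of `K` is in
`form K`. PROOF. `L12` with `N i = F`, `S₀ = ∅`, `E = form K`: `L ⊔ ⨆_(i ∈ S) F = ⊤ ≅ K` for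
`S ≠ ∅` (`Subgroup.topEquiv`), and `L ⊔ ⨆_(i ∈ ∅) F = L`. -/
theorem L2 {K : Type} [Group K] [Finite K] {s : ℕ} (hs : 0 < s) (L F : Subgroup K)
    (hF : F.Normal) (hnil : gam F s = ⊥) (hLF : L ⊔ F = ⊤) : (form K).mem L := by
  have h := L12 (form K) hs L (fun _ => F) F hF (fun _ => le_rfl) hnil ∅ (by
    intro S hS
    have hne : S.Nonempty := Finset.nonempty_iff_ne_empty.2 hS
    obtain ⟨i, hi⟩ := hne
    have h1 : F ≤ ⨆ j ∈ S, F := le_iSup₂_of_le i hi le_rfl
    have h2 : L ⊔ ⨆ j ∈ S, F = ⊤ := by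
      rw [eq_top_iff, ← hLF]
      exact sup_le_sup_left h1 L
    rw [h2]
    exact (form K).iso _ _ Subgroup.topEquiv.symm (mem_form K))
  have h3 : (L ⊔ ⨆ i ∈ (∅ : Finset (Fin s)), F) = L := by simp
  rwa [h3] at h

/-- PROOF. `L12` with `S₀ = univ`, `Subgroup.topEquiv`. -/
theorem L1 (E : Formation) {K : Type} [Group K] [Finite K] {s : ℕ} (hs : 0 < s) (L : Subgroup K)
    (N : Fin s → Subgroup K) (F : Subgroup K) (hF : F.Normal) (hN : ∀ i, N i ≤ F)
    (hnil : gam F s = ⊥) (htop : L ⊔ ⨆ i, N i = ⊤)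
    (hmem : ∀ S : Finset (Fin s), S ≠ univ → E.mem ↥(L ⊔ ⨆ i ∈ S, N i)) : E.mem K := by
  have h := L12 E hs L N F hF hN hnil univ hmem
  have h3 : (L ⊔ ⨆ i ∈ (univ : Finset (Fin s)), N i) = ⊤ := by
    rw [← htop]
    simp
  rw [h3] at h
  exact E.iso _ _ Subgroup.topEquiv h

end MP799fdf
end

section

/-! # Few abelian minimal normal subgroups -/

set_option autoImplicit false

open scoped commutatorElement

namespace MP799fdf

open Finset

/-- Irreducible groups have few abelian minimal normal subgroups modulo the Frattini subgroup.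

PROOF. Suppose `c + 1 ≤ r`. Let `mk : K → K ⧸ frattini K`, `L = M.comap mk`, `N i = (U i).comap mk`,
`F = (⨆ i, U i).comap mk`, a normal subgroup with `⁅F, F⁆ ≤ frattini K`; `F` is nilpotent
(`nilpotent_of_quot`), so `gam F r ≤ gam F (c + 1) = ⊥`. `L ⊔ ⨆ i, N i = ⊤`, `L ⊔ F = ⊤`,
`N i ≤ F`. For `S ≠ univ` the subgroup `X = L ⊔ ⨆_(i ∈ S) N i` is not `⊤` (`proper_of_family`), so
`|X| < |K|`, and `X ∈ form K` by `L2` (`X ⊔ F = ⊤`). So `X ∈ low K`. By `L1`, `K ∈ low K`,
a contradiction. -/
theorem few_abelian {c : ℕ} {K : Type} [Group K] [Finite K] (hK : IsIrr K)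
    (hc : ∀ F : Subgroup K, Group.IsNilpotent F → gam F (c + 1) = ⊥) {r : ℕ}
    (U : Fin r → Subgroup (K ⧸ frattini K)) (hU : ∀ i, IsChief (U i) ⊥)
    (hab : ∀ x ∈ ⨆ i, U i, ∀ y ∈ ⨆ i, U i, x * y = y * x)
    (hcard : Nat.card ↥(⨆ i, U i) = ∏ i, Nat.card (U i))
    (M : Subgroup (K ⧸ frattini K)) (h1 : (⨆ i, U i) ⊔ M = ⊤) (h2 : (⨆ i, U i) ⊓ M = ⊥) :
    r ≤ c := by
  classical
  by_contra hrc
  have hr : c + 1 ≤ r := by omega
  set mk : K →* K ⧸ frattini K := QuotientGroup.mk' (frattini K) with hmk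
  have hsurj : Function.Surjective mk := QuotientGroup.mk'_surjective _
  have hker : mk.ker = frattini K := QuotientGroup.ker_mk' _
  set L : Subgroup K := M.comap mk with hL
  set N : Fin r → Subgroup K := fun i => (U i).comap mk with hN
  set F : Subgroup K := (⨆ i, U i).comap mk with hF
  have hUn : ∀ i, (U i).Normal := fun i => (hU i).nH
  have hSn : (⨆ i, U i).Normal := Subgroup.iSup_normal U
  have hFn : F.Normal := hSn.comap mk
  have hfF : frattini K ≤ F := by
    intro x hx
    show mk x ∈ ⨆ i, U i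
    have : mk x = 1 := by rw [← MonoidHom.mem_ker, hker]; exact hx
    rw [this]
    exact Subgroup.one_mem _
  have hcomm : ⁅F, F⁆ ≤ frattini K := by
    rw [Subgroup.commutator_le]
    intro x hx y hy
    rw [← hker, MonoidHom.mem_ker, map_commutatorElement, commutatorElement_eq_one_iff_mul_comm]
    exact hab _ hx _ hy
  have hnilp := nilpotent_of_quot F hFn hfF hcomm
  have hgam : gam F r = ⊥ := by
    have h3 := gam_anti F hFn hr
    rw [hc F hnilp] at h3
    exact le_bot_iff.mp h3
  have hr0 : 0 < r := by omega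
  have hmapL : L.map mk = M := Subgroup.map_comap_eq_self_of_surjective hsurj M
  have hmapN : ∀ i, (N i).map mk = U i := fun i => Subgroup.map_comap_eq_self_of_surjective hsurj (U i)
  have hmapF : F.map mk = ⨆ i, U i := Subgroup.map_comap_eq_self_of_surjective hsurj _
  have hLker : frattini K ≤ L := by
    intro x hx
    show mk x ∈ M
    have : mk x = 1 := by rw [← MonoidHom.mem_ker, hker]; exact hx
    rw [this]
    exact Subgroup.one_mem _
  have htop_of : ∀ H : Subgroup K, L ≤ H → H.map mk = ⊤ → H = ⊤ := by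
    intro H hLH hmap
    have h3 := Subgroup.comap_map_eq mk H
    rw [hmap, Subgroup.comap_top, hker, sup_eq_left.mpr (hLker.trans hLH)] at h3
    exact h3.symm
  have htop : L ⊔ ⨆ i, N i = ⊤ := by
    refine htop_of _ le_sup_left ?_
    rw [Subgroup.map_sup, Subgroup.map_iSup, hmapL, iSup_congr hmapN, sup_comm]
    exact h1
  have hLF : L ⊔ F = ⊤ := by
    refine htop_of _ le_sup_left ?_
    rw [Subgroup.map_sup, hmapL, hmapF, sup_comm]
    exact h1
  have hNF : ∀ i, N i ≤ F := fun i => Subgroup.comap_mono (le_iSup U i)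
  refine hK (L1 (low K) hr0 L N F hFn hNF hgam htop fun S hS => ?_)
  set X : Subgroup K := L ⊔ ⨆ i ∈ S, N i with hX
  have hXmap : X.map mk = M ⊔ ⨆ i ∈ S, U i := by
    rw [hX, Subgroup.map_sup, hmapL, Subgroup.map_iSup]
    congr 1
    refine iSup_congr fun i => ?_
    rw [Subgroup.map_iSup]
    exact iSup_congr fun _ => hmapN i
  have hXtop : X ≠ ⊤ := by
    intro h3
    refine proper_of_family U hU hcard M h1 h2 S hS ?_
    rw [← hXmap, h3]
    exact Subgroup.map_top_of_surjective mk hsurj
  have hXF : X ⊔ F = ⊤ := by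
    refine top_le_iff.mp ?_
    rw [← hLF]
    exact sup_le_sup_right le_sup_left F
  have hXform : (form K).mem X := L2 hr0 X F hFn hgam hXF
  have hXcard : Nat.card X < Nat.card K := by
    refine lt_of_le_of_ne (Subgroup.card_le_card_group X) fun h3 => hXtop ?_
    exact Subgroup.eq_top_of_card_eq X h3
  exact fun F' hF' => hF' X ⟨hXform, hXcard⟩

end MP799fdf
end

section

/-! # The order modulo the Frattini subgroup -/

set_option autoImplicit false

open scoped commutatorElement

namespace MP799fdf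

open Finset

/-- a nontrivial normal subgroup of a finite group contains a minimal one -/
private lemma mainC_exists_min {Q : Type} [Group Q] [Finite Q] (X : Subgroup Q) (hX : X.Normal)
    (hne : X ≠ ⊥) : ∃ W : Subgroup Q, IsChief W ⊥ ∧ W ≤ X := by
  obtain ⟨W, hW⟩ := (Set.toFinite {Z : Subgroup Q | Z.Normal ∧ Z ≠ ⊥ ∧ Z ≤ X}).exists_minimal
    ⟨X, hX, hne, le_refl X⟩
  refine ⟨W, ⟨hW.1.1, inferInstance, bot_lt_iff_ne_bot.2 hW.1.2.1, ?_⟩, hW.1.2.2⟩
  intro Z hZ _ hZW
  by_cases hZb : Z = ⊥
  · exact Or.inl hZb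
  · right
    refine le_antisymm hZW ?_
    exact hW.2 ⟨hZ, hZb, hZW.trans hW.1.2.2⟩ hZW

private lemma mainC_relIndex_le_index {Q : Type} [Group Q] [Finite Q] (H L : Subgroup Q) :
    H.relIndex L ≤ H.index := by
  rw [← Subgroup.relIndex_top_right]
  refine Subgroup.relIndex_le_of_le_right le_top ?_
  rw [Subgroup.relIndex_top_right]
  exact Subgroup.index_ne_zero_of_finite

/-- The order of `K / frattini K`.

PROOF. `Q = K ⧸ frattini K`; `exists_family`, `exists_compl` (`frattini_quot`; `A = ⨆ U i` is normal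
and abelian), `few_abelian`: `r ≤ c`. `ChiefBound n Q` (`chief_surj`): `|U i| ≤ n`, and `C i` normal
with `⁅C i, U i⁆ = ⊥`, `(C i).index ≤ n`. `D = M ⊓ ⨅ i, C i` is normal in `Q` (normalised by `M`,
centralised by `A`). `|M| ≤ |D| n ^ r`, `|A| ≤ n ^ r`, `|Q| = |A| |M|`. Let `CV` be the subgroup for
`V`, `(CV.map mk).index ≤ n`. `D ⊓ CV.map mk = ⊥`: otherwise it contains a minimal normal subgroup
`W` of `Q`; `W` is abelian by `no_nonabelian`, so `W ≤ A`, and `W ≤ D ≤ M`, `A ⊓ M = ⊥`,
a contradiction. So `|D| ≤ n`. `|Q| ≤ n ^ (2 r + 1) ≤ n ^ (2 c + 1)` (`1 ≤ n`). -/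
theorem bound_quot {n c : ℕ} {K : Type} [Group K] [Finite K] (hCF : CF K) (hK : IsIrr K)
    (hn : ChiefBound n K) (hc : ∀ F : Subgroup K, Group.IsNilpotent F → gam F (c + 1) = ⊥)
    (V : Subgroup K) (hV : IsMono V) : Nat.card (K ⧸ frattini K) ≤ n ^ (2 * c + 1) := by
  classical
  have hmk : Function.Surjective (QuotientGroup.mk' (frattini K)) := QuotientGroup.mk'_surjective _
  have hQf : frattini (K ⧸ frattini K) = ⊥ := frattini_quot K
  obtain ⟨r, U, hU, hab, hcard, hmax⟩ := exists_family (K ⧸ frattini K)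
  have hUn : ∀ i, (U i).Normal := fun i => (hU i).nH
  have hAn : (⨆ i, U i).Normal := Subgroup.iSup_normal U
  obtain ⟨M, hM1, hM2⟩ := exists_compl hQf (⨆ i, U i) hAn hab
  have hrc : r ≤ c := few_abelian hK hc U hU hab hcard M hM1 hM2
  have hCB : ChiefBound n (K ⧸ frattini K) := chief_surj _ hmk hn
  -- the chief factor `V`
  have hVn := hV.nV
  have hVc : IsChief V ⊥ := by
    refine ⟨hV.nV, inferInstance, bot_lt_iff_ne_bot.2 hV.ne, ?_⟩
    intro Z hZ _ hZV
    by_cases hZb : Z = ⊥
    · exact Or.inl hZb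
    · exact Or.inr (le_antisymm hZV (hV.le Z hZ hZb))
  obtain ⟨-, C0, hC0n, hC0V, hC0i⟩ := hn V ⊥ hVc
  have hn1 : 1 ≤ n := by
    have h1 : C0.index ≠ 0 := Subgroup.index_ne_zero_of_finite
    omega
  have hmapi : (C0.map (QuotientGroup.mk' (frattini K))).index ≤ n := by
    have h1 := Subgroup.index_map_dvd (H := C0) hmk
    have h2 : C0.index ≠ 0 := Subgroup.index_ne_zero_of_finite
    exact (Nat.le_of_dvd (Nat.pos_of_ne_zero h2) h1).trans hC0i
  have hmapn : (C0.map (QuotientGroup.mk' (frattini K))).Normal := hC0n.map _ hmk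
  -- the centralisers of the `U i`
  have hUb : ∀ i, Nat.card (U i) ≤ n := by
    intro i
    have h1 := (hCB (U i) ⊥ (hU i)).1
    rwa [Subgroup.relIndex_bot_left] at h1
  choose C hCn hCU hCi using fun i => (hCB (U i) ⊥ (hU i)).2
  set D : Subgroup (K ⧸ frattini K) := M ⊓ ⨅ i, C i with hD
  have hIn : (⨅ i, C i).Normal := Subgroup.normal_iInf_normal hCn
  have hcen : ∀ y ∈ ⨅ i, C i, ∀ a ∈ ⨆ i, U i, a * y = y * a := by
    intro y hy a ha
    have h1 : (⨆ i, U i) ≤ Subgroup.centralizer {y} := by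
      refine iSup_le fun i x hx => ?_
      rw [Subgroup.mem_centralizer_iff]
      intro z hz
      rw [Set.mem_singleton_iff] at hz
      subst hz
      have h2 : ⁅z, x⁆ ∈ ⁅C i, U i⁆ :=
        Subgroup.commutator_mem_commutator ((Subgroup.mem_iInf.1 hy) i) hx
      have h3 : ⁅z, x⁆ = 1 := by simpa using hCU i h2
      exact commutatorElement_eq_one_iff_mul_comm.1 h3
    have h4 := Subgroup.mem_centralizer_iff.1 (h1 ha) y (Set.mem_singleton y)
    exact h4.symm
  have hDn : D.Normal := by
    refine ⟨fun x hx g => ?_⟩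
    have hg : g ∈ (⨆ i, U i) ⊔ M := by rw [hM1]; exact Subgroup.mem_top g
    obtain ⟨a, ha, m, hm, rfl⟩ := Subgroup.mem_sup_of_normal_left.1 hg
    have h1 : m * x * m⁻¹ ∈ M := M.mul_mem (M.mul_mem hm hx.1) (M.inv_mem hm)
    have h2 : m * x * m⁻¹ ∈ ⨅ i, C i := hIn.conj_mem x hx.2 m
    have h3 : a * m * x * (a * m)⁻¹ = m * x * m⁻¹ := by
      have h4 : a * m * x * (a * m)⁻¹ = a * (m * x * m⁻¹) * a⁻¹ := by group
      rw [h4, hcen _ h2 a ha, mul_assoc, mul_inv_cancel, mul_one]
    rw [h3]
    exact ⟨h1, h2⟩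
  have hDC : C0.map (QuotientGroup.mk' (frattini K)) ⊓ D = ⊥ := by
    by_contra hne
    have hXn : (C0.map (QuotientGroup.mk' (frattini K)) ⊓ D).Normal :=
      Subgroup.normal_inf_normal _ _
    obtain ⟨W, hW, hWX⟩ := mainC_exists_min _ hXn hne
    have hWab := no_nonabelian hCF V hV C0 hC0n hC0V W hW (hWX.trans inf_le_left)
    have hWA := hmax W hW hWab
    have hWM : W ≤ M := (hWX.trans inf_le_right).trans inf_le_left
    have : W ≤ ⊥ := by
      rw [← hM2]
      exact le_inf hWA hWM
    exact hW.lt.ne' (le_bot_iff.1 this)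
  have hDcard : Nat.card D ≤ n := by
    have h1 : (C0.map (QuotientGroup.mk' (frattini K))).relIndex D = Nat.card D := by
      rw [← Subgroup.inf_relIndex_right, hDC, Subgroup.relIndex_bot_left]
    rw [← h1]
    exact (mainC_relIndex_le_index _ _).trans hmapi
  have hMcard : Nat.card M ≤ n * n ^ r := by
    have h1 : (⨅ i, C i).relIndex M ≤ n ^ r := by
      refine (Subgroup.relIndex_iInf_le C).trans ?_
      calc ∏ i, (C i).relIndex M ≤ ∏ _i : Fin r, n :=
            Finset.prod_le_prod' fun i _ => (mainC_relIndex_le_index _ _).trans (hCi i)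
        _ = n ^ r := by simp
    have h2 : D.relIndex M = (⨅ i, C i).relIndex M := by
      rw [hD, inf_comm, Subgroup.inf_relIndex_right]
    have h3 : (⊥ : Subgroup (K ⧸ frattini K)).relIndex D * D.relIndex M =
        (⊥ : Subgroup (K ⧸ frattini K)).relIndex M :=
      Subgroup.relIndex_mul_relIndex ⊥ D M bot_le inf_le_left
    rw [Subgroup.relIndex_bot_left, Subgroup.relIndex_bot_left] at h3
    rw [← h3]
    exact Nat.mul_le_mul hDcard (h2.trans_le h1)
  have hAcard : Nat.card ↥(⨆ i, U i) ≤ n ^ r := by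
    rw [hcard]
    calc ∏ i, Nat.card (U i) ≤ ∏ _i : Fin r, n := Finset.prod_le_prod' fun i _ => hUb i
      _ = n ^ r := by simp
  have hQcard : Nat.card (K ⧸ frattini K) ≤ Nat.card ↥(⨆ i, U i) * Nat.card M := by
    rw [← Nat.card_prod]
    refine Nat.card_le_card_of_surjective
      (fun p : ↥(⨆ i, U i) × M => (p.1 : K ⧸ frattini K) * (p.2 : K ⧸ frattini K)) ?_
    intro g
    have hg : g ∈ (⨆ i, U i) ⊔ M := by rw [hM1]; exact Subgroup.mem_top g
    obtain ⟨a, ha, m, hm, rfl⟩ := Subgroup.mem_sup_of_normal_left.1 hg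
    exact ⟨(⟨a, ha⟩, ⟨m, hm⟩), rfl⟩
  calc Nat.card (K ⧸ frattini K) ≤ Nat.card ↥(⨆ i, U i) * Nat.card M := hQcard
    _ ≤ n ^ r * (n * n ^ r) := Nat.mul_le_mul hAcard hMcard
    _ = n ^ (2 * r + 1) := by ring
    _ ≤ n ^ (2 * c + 1) := Nat.pow_le_pow_right hn1 (by omega)

end MP799fdf
end

section

/-! # The main theorem -/

set_option autoImplicit false

open scoped commutatorElement

namespace MP799fdf

open Finset

/-- THE THEOREM. PROOF. `CF` holds in `form G` (`form_induction`, `cf_surj`, `cf_sub`). Let `c` be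
the constant of `class_form`, `n = |G|`, `B₁` the constant of `gen_bound` for `n ^ (2 c + 1)`,
`B = max B₁ 1`. Let `K ∈ form G` be irreducible; if `K` is trivial, `|K| = 1`.
Otherwise `V` = `irr_mono`; `bound_quot`, `gens_of_quot`, `gen_bound`. Then `finite_of_bound`. -/
theorem main (G : Type) [Group G] [Finite G] (hG : CF G) :
    {F : Formation | F.IsSub (form G)}.Finite := by
  classical
  obtain ⟨c, hc⟩ := class_form G
  obtain ⟨B₁, hB₁⟩ := gen_bound G (Nat.card G ^ (2 * c + 1))
  have hCF : ∀ (K : Type) [Group K] [Finite K], (form G).mem K → CF K := fun K _ _ hK =>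
    form_induction (G := G) (fun H _ _ => CF H)
      (fun _ _ _ _ _ _ f hf h => cf_surj f hf h)
      (fun _ _ _ _ _ _ _ _ _ f g hf hg hA hB h => cf_sub f g hf hg hA hB h) hG K hK
  refine finite_of_bound (max B₁ 1) fun K _ _ hK hirr => ?_
  rcases subsingleton_or_nontrivial K with hsub | hnt
  · have : Nat.card K = 1 := Nat.card_eq_one_iff_unique.2 ⟨hsub, ⟨1⟩⟩
    rw [this]
    exact le_max_right _ _
  · obtain ⟨V, hV⟩ := irr_mono hirr
    have hn := chief_form (G := G) K hK
    have h1 := bound_quot (hCF K hK) hirr hn (fun F hF => hc K hK F hF) V hV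
    have h2 := gens_of_quot (K := K) _ h1
    exact (hB₁ K hK h2).trans (le_max_left _ _)

end MP799fdf
end
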